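import Pool.Agent.Lib_helper79.PropInt.Red
import Pool.Agent.Lib_helper79.Seg.Verify

/-!
The reduction is computable in polynomial time.
-/

set_option autoImplicit false

namespace Pool.Agent.Poly

variable {α β γ : Type} [Rep α] [Rep β] [Rep γ]

@[fun_prop]
lemma PolyTime.div {f g : α → ℕ} (hf : PolyTime f) (hg : PolyTime g) :
    PolyTime (fun x => f x / g x) := by
  have : (fun x => f x / g x) = fun x => if g x = 0 then 0 else
      ((List.range (f x)).filter (fun i => decide ((i + 1) * g x ≤ f x))).length := by
    funext x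
    rcases Nat.eq_zero_or_pos (g x) with h | h
    · simp [h]
    · have h1 : ((List.range (f x)).filter (fun i => decide ((i + 1) * g x ≤ f x))).length =
          f x / g x := by
        have h2 : ∀ n, ((List.range n).filter (fun i => decide ((i + 1) * g x ≤ f x))).length =
            min n (f x / g x) := by
          intro n
          induction n with
          | zero => simp
          | succ n ih =>
            rw [List.range_succ, List.filter_append, List.length_append, ih]
            by_cases h3 : (n + 1) * g x ≤ f x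
            · have h4 : n + 1 ≤ f x / g x := (Nat.le_div_iff_mul_le h).2 h3
              simp [h3]
              omega
            · have h4 : ¬ n + 1 ≤ f x / g x := fun h5 => h3 ((Nat.le_div_iff_mul_le h).1 h5)
              simp [h3]
              omega
        rw [h2]
        exact min_eq_right (Nat.div_le_self _ _)
      have h2 : g x ≠ 0 := by omega
      rw [if_neg h2, h1]
  rw [this]
  apply PolyTime.ite (PolyTime.natEq hg (PolyTime.const 0)) (PolyTime.const 0)
  apply PolyTime.length
  apply PolyTime.filter (PolyTime.range hf)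
  apply PolyTime.le
  · fun_prop
  · fun_prop

end Pool.Agent.Poly

namespace Pool.Agent.PropInt

open El List Pool.Agent.Poly

variable {α : Type} [Rep α]

lemma pt_norm : PolyTime norm := by
  unfold norm
  apply PolyTime.flatMap (α := List (ℕ × ℕ × ℕ)) (f := fun F => F) PolyTime.id'
    (g := fun _ c => if c.2.2 = c.1 then
    (if c.2.2 = c.2.1 then [(0, 0, 1), (1, 1, 2), (2, 2, 0)] else [(c.1, c.1, c.2.1)])
  else (if c.2.2 = c.2.1 then [(c.2.1, c.2.1, c.1)] else [c]))
  apply PolyTime.ite
  · exact PolyTime.natEq (by fun_prop) (by fun_prop)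
  · apply PolyTime.ite
    · exact PolyTime.natEq (by fun_prop) (by fun_prop)
    · fun_prop
    · fun_prop
  · apply PolyTime.ite
    · exact PolyTime.natEq (by fun_prop) (by fun_prop)
    · fun_prop
    · fun_prop

lemma pt_nw {C : α → List (ℕ × ℕ × ℕ)} (hC : PolyTime C) : PolyTime (fun x => nw (C x)) := by
  unfold nw
  apply PolyTime.length
  apply PolyTime.flatMap hC
  fun_prop

lemma pt_zone {C : α → List (ℕ × ℕ × ℕ)} {i k : α → ℕ} (hC : PolyTime C) (hi : PolyTime i)
    (hk : PolyTime k) : PolyTime (fun x => zone (C x) (i x) (k x)) := by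
  have hn := pt_nw hC
  unfold zone
  apply PolyTime.ite
  · exact PolyTime.lt (by fun_prop) (by fun_prop)
  · apply PolyTime.ite
    · exact PolyTime.dAnd (PolyTime.natEq (by fun_prop) (by fun_prop))
        (PolyTime.natEq (PolyTime.mod (by fun_prop) (by fun_prop)) (by fun_prop))
    · fun_prop
    · apply PolyTime.ite
      · exact PolyTime.natEq (by fun_prop) (by fun_prop)
      · fun_prop
      · fun_prop
  · apply PolyTime.ite
    · exact PolyTime.natEq (by fun_prop) (by fun_prop)
    · fun_prop
    · apply PolyTime.ite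
      · exact PolyTime.dAnd (PolyTime.natEq (by fun_prop) (by fun_prop))
          (PolyTime.natEq (PolyTime.mod (by fun_prop) (by fun_prop)) (by fun_prop))
      · fun_prop
      · fun_prop

lemma pt_pt {n a b : α → ℕ} (hn : PolyTime n) (ha : PolyTime a) (hb : PolyTime b) :
    PolyTime (fun x => pt (n x) (a x, b x)) := by
  unfold pt
  fun_prop

lemma pt_ints {C : α → List (ℕ × ℕ × ℕ)} (hC : PolyTime C) : PolyTime (fun x => ints (C x)) := by
  unfold ints
  apply PolyTime.append
  · apply PolyTime.flatMap (by fun_prop)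
    apply PolyTime.append
    · apply PolyTime.flatMap
      · have := pt_nw (α := α × ℕ) (C := fun p => C p.1) (by fun_prop)
        fun_prop
      · have hn := pt_nw (α := (α × ℕ) × ℕ) (C := fun p => C p.1.1) (by fun_prop)
        have hz := pt_zone (α := (α × ℕ) × ℕ) (C := fun p => C p.1.1) (i := fun p => p.1.2)
          (k := fun p => p.2) (by fun_prop) (by fun_prop) (by fun_prop)
        have hz' := pt_zone (α := (α × ℕ) × ℕ) (C := fun p => C p.1.1) (i := fun p => p.1.2 + 1)
          (k := fun p => p.2) (by fun_prop) (by fun_prop) (by fun_prop)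
        unfold iv lo hi
        refine PolyTime.lcons (PolyTime.pair (pt_pt hn ?_ ?_) (pt_pt hn ?_ ?_))
          (PolyTime.lcons (PolyTime.pair (pt_pt hn ?_ ?_) (pt_pt hn ?_ ?_))
          (PolyTime.lcons (PolyTime.pair (pt_pt hn ?_ ?_) (pt_pt hn ?_ ?_)) (PolyTime.const _)))
        all_goals fun_prop
    · have hn := pt_nw (α := α × ℕ) (C := fun p => C p.1) (by fun_prop)
      apply PolyTime.append
      · unfold iv lo hi
        refine PolyTime.lcons (PolyTime.pair (pt_pt hn ?_ ?_) (pt_pt hn ?_ ?_))
          (PolyTime.lcons (PolyTime.pair (pt_pt hn ?_ ?_) (pt_pt hn ?_ ?_))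
          (PolyTime.lcons (PolyTime.pair (pt_pt hn ?_ ?_) (pt_pt hn ?_ ?_)) (PolyTime.const _)))
        all_goals fun_prop
      · apply PolyTime.map (by fun_prop)
        have hn := pt_nw (α := (α × ℕ) × ℕ) (C := fun p => C p.1.1) (by fun_prop)
        unfold iv lo hi
        refine PolyTime.pair (pt_pt hn ?_ ?_) (pt_pt hn ?_ ?_)
        all_goals fun_prop
  · apply PolyTime.flatMap (by fun_prop)
    have hn := pt_nw (α := α × ℕ) (C := fun p => C p.1) (by fun_prop)
    have hc := PolyTime.getD (α := α × ℕ) (f := fun p => C p.1) (i := fun p => p.2)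
      (g := fun _ => (0, 0, 0)) (by fun_prop) (by fun_prop) (by fun_prop)
    have z1 := pt_zone (α := α × ℕ) (C := fun p => C p.1) (i := fun p => 2 * (C p.1).length + 2 * p.2)
      (k := fun p => ((C p.1).getD p.2 (0, 0, 0)).1) (by fun_prop) (by fun_prop) (by fun_prop)
    have z2 := pt_zone (α := α × ℕ) (C := fun p => C p.1) (i := fun p => 2 * (C p.1).length + 2 * p.2)
      (k := fun p => ((C p.1).getD p.2 (0, 0, 0)).2.2) (by fun_prop) (by fun_prop) (by fun_prop)
    have z3 := pt_zone (α := α × ℕ) (C := fun p => C p.1) (i := fun p => 2 * p.2 + 1)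
      (k := fun p => ((C p.1).getD p.2 (0, 0, 0)).1) (by fun_prop) (by fun_prop) (by fun_prop)
    have z4 := pt_zone (α := α × ℕ) (C := fun p => C p.1) (i := fun p => 2 * p.2 + 1)
      (k := fun p => ((C p.1).getD p.2 (0, 0, 0)).2.2) (by fun_prop) (by fun_prop) (by fun_prop)
    unfold iv lo hi
    refine PolyTime.lcons (PolyTime.pair (pt_pt hn ?_ ?_) (pt_pt hn ?_ ?_))
      (PolyTime.lcons (PolyTime.pair (pt_pt hn ?_ ?_) (pt_pt hn ?_ ?_)) (PolyTime.const _))
    all_goals fun_prop

lemma pt_adjLists {I : α → List (ℕ × ℕ)} (hI : PolyTime I) : PolyTime (fun x => adjLists (I x)) := by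
  unfold adjLists
  apply PolyTime.map (by fun_prop)
  apply PolyTime.filter (by fun_prop)
  refine PolyTime.and (PolyTime.not (PolyTime.natEq (by fun_prop) (by fun_prop)))
    (PolyTime.and (PolyTime.le (by fun_prop) (by fun_prop)) (PolyTime.le (by fun_prop) (by fun_prop)))

theorem reduction : ∃ R : List (ℕ × ℕ × ℕ) → List (List ℕ), PolyTime R ∧
    (∀ F, IsIntervalGraph (graphOf (R F))) ∧ ∀ F, NAE3 F ↔ Partitionable (graphOf (R F)) := by
  refine ⟨fun F => adjLists (ints (norm F)), pt_adjLists (pt_ints pt_norm), ?_, ?_⟩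
  · intro F
    exact isInterval_adjLists _ (ints_le _ fun c hc => norm_ne hc)
  · intro F
    rw [← ints_iff (norm F) (fun c hc => norm_ne hc)]
    unfold NAE3
    simp only [norm_iff]

end Pool.Agent.PropInt
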