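import Mathlib

/-!
Interval graphs, proper interval graphs and partitions into two proper interval graphs.
-/

set_option autoImplicit false

namespace Pool.Agent.PropInt

/-- The closed intervals `[l v, r v]` represent the graph `G`: two distinct vertices are adjacent
exactly when their intervals meet. -/
def Represents {V : Type} (G : SimpleGraph V) (l r : V → ℝ) : Prop :=
  (∀ v, l v ≤ r v) ∧
    ∀ u v, u ≠ v → (G.Adj u v ↔ (Set.Icc (l u) (r u) ∩ Set.Icc (l v) (r v)).Nonempty)

/-- Interval graphs. -/
def IsIntervalGraph {V : Type} (G : SimpleGraph V) : Prop :=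
  ∃ l r : V → ℝ, Represents G l r

/-- Proper interval graphs: no interval properly contains another. -/
def IsProperIntervalGraph {V : Type} (G : SimpleGraph V) : Prop :=
  ∃ l r : V → ℝ, Represents G l r ∧ ∀ u v, ¬ Set.Icc (l u) (r u) ⊂ Set.Icc (l v) (r v)

/-- The vertex set splits into two parts that both induce proper interval graphs. -/
def Partitionable {V : Type} (G : SimpleGraph V) : Prop :=
  ∃ A : Set V, IsProperIntervalGraph (G.induce A) ∧ IsProperIntervalGraph (G.induce Aᶜ)

/-- The graph on `{0, …, L.length - 1}` with adjacency lists `L`: the entry of `L` at `u` lists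
neighbours of `u`. -/
def graphOf (L : List (List ℕ)) : SimpleGraph (Fin L.length) :=
  SimpleGraph.fromRel fun u v => (v : ℕ) ∈ L[(u : ℕ)]

/-- The problem NAE-3-SAT (without negations): an instance is a list of triples of variables, and the
question is whether some truth assignment makes no triple constant. -/
def NAE3 (F : List (ℕ × ℕ × ℕ)) : Prop :=
  ∃ f : ℕ → Bool, ∀ c ∈ F, ¬ (f c.1 = f c.2.1 ∧ f c.2.1 = f c.2.2)

end Pool.Agent.PropInt
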