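import Mathlib

/-!
The geometric part of the reduction: a family of labelled intervals.
-/

set_option autoImplicit false

namespace Pool.Agent.PropInt

/-- Labels of the intervals. -/
inductive El : Type
  | w (i k : ℕ)
  | b (i k : ℕ)
  | x (i k : ℕ)
  | A (i : ℕ)
  | W (i : ℕ)
  | B (i : ℕ)
  | T (i s : ℕ)
  | e (i u v t : ℕ)
  | f (i u v t : ℕ)

open El

/-- left ends (lexicographic coordinates) -/
def lo (κ : ℕ → ℕ → ℕ) : El → ℕ × ℕ
  | w i k => (4 * i + 1, 5 * κ i k)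
  | b i k => (4 * i + 1, 5 * κ i k + 4)
  | x i k => (4 * i + 3, 5 * κ i k + 2)
  | A i => (4 * i, 1)
  | W i => (4 * i + 2, 0)
  | B i => (4 * i + 2, 7)
  | T i s => (4 * i + 2, s)
  | e i u _ _ => (4 * i + 3, 5 * κ i u + 3)
  | f i _ _ t => (4 * i + 5, 5 * κ (i + 1) t + 3)

/-- right ends -/
def hi (κ : ℕ → ℕ → ℕ) : El → ℕ × ℕ
  | w i k => (4 * i + 3, 5 * κ i k + 4)
  | b i k => (4 * i + 3, 5 * κ i k)
  | x i k => (4 * i + 5, 5 * κ (i + 1) k + 2)
  | A i => (4 * i + 2, 6)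
  | W i => (4 * i + 4, 2)
  | B i => (4 * i + 4, 0)
  | T i s => (4 * i + 2, s)
  | e i _ _ t => (4 * i + 3, 5 * κ i t + 1)
  | f i u _ _ => (4 * i + 5, 5 * κ (i + 1) u + 1)

/-- the labels that occur -/
def Valid (n M : ℕ) (NG PG : ℕ → ℕ → ℕ → ℕ → Prop) : El → Prop
  | w i k => i < M ∧ k < n
  | b i k => i < M ∧ k < n
  | x i k => i < M ∧ k < n
  | A i => i < M
  | W i => i < M
  | B i => i < M
  | T i s => i < M ∧ s < 13
  | e i u v t => NG i u v t
  | f i u v t => PG i u v t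

/-- Conditions on the zone numbers. -/
structure Good (n M : ℕ) (κ : ℕ → ℕ → ℕ) (NG PG : ℕ → ℕ → ℕ → ℕ → Prop) : Prop where
  inj : ∀ i k k', k < n → k' < n → κ i k = κ i k' → k = k'
  nlt : ∀ i u v t, NG i u v t → u < n ∧ v < n ∧ t < n ∧ u ≠ t ∧ v ≠ t ∧ 0 < i ∧ i + 1 < M
  plt : ∀ i u v t, PG i u v t → u < n ∧ v < n ∧ t < n ∧ u ≠ t ∧ v ≠ t ∧ i + 2 < M
  n1 : ∀ i u v t, NG i u v t → ∀ k < n, k ≠ t → κ i k < κ i t
  n2 : ∀ i u v t, NG i u v t → κ (i + 1) t < κ (i + 1) v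
  n3 : ∀ i u v t, NG i u v t → ∀ k < n, k ≠ t → k ≠ v → κ (i + 1) k < κ (i + 1) t
  p1 : ∀ i u v t, PG i u v t → ∀ k < n, k ≠ t → κ (i + 1) t < κ (i + 1) k
  p2 : ∀ i u v t, PG i u v t → κ i v < κ i t
  p3 : ∀ i u v t, PG i u v t → ∀ k < n, k ≠ t → k ≠ v → κ i t < κ i k
  nuniq : ∀ i u v t u' v' t', NG i u v t → NG i u' v' t' → u = u' ∧ v = v' ∧ t = t'
  puniq : ∀ i u v t u' v' t', PG i u v t → PG i u' v' t' → u = u' ∧ v = v' ∧ t = t'
  np : ∀ i u v t u' v' t', NG i u v t → PG i u' v' t' → False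

/-- block number -/
def blk (σ : ℕ → ℕ) : El → ℕ
  | w i _ => i
  | b i _ => i
  | x i k => i + σ k
  | A i => i
  | W i => i
  | B i => i
  | T i _ => i + 1
  | e i _ v t => i + 1 - min (σ v) (σ t)
  | f i _ v t => i + 1 - max (σ v) (σ t)

variable {n M : ℕ} {κ : ℕ → ℕ → ℕ} {NG PG : ℕ → ℕ → ℕ → ℕ → Prop} {σ : ℕ → ℕ}

/-- the claw with centre `c` and leaves `a`, `b`, `d` from left to right -/
def Claw (κ : ℕ → ℕ → ℕ) (c a b d : El) : Prop :=
  ((lo κ c).1 < (hi κ a).1 ∨ ((lo κ c).1 = (hi κ a).1 ∧ (lo κ c).2 ≤ (hi κ a).2)) ∧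
  ((hi κ a).1 < (lo κ b).1 ∨ ((hi κ a).1 = (lo κ b).1 ∧ (hi κ a).2 < (lo κ b).2)) ∧
  ((hi κ b).1 < (lo κ d).1 ∨ ((hi κ b).1 = (lo κ d).1 ∧ (hi κ b).2 < (lo κ d).2)) ∧
  ((lo κ d).1 < (hi κ c).1 ∨ ((lo κ d).1 = (hi κ c).1 ∧ (lo κ d).2 ≤ (hi κ c).2))

lemma blk_range (hσ : ∀ k, σ k ≤ 1) (a : El) : 4 * blk σ a ≤ (lo κ a).1 + 2 ∧
    (hi κ a).1 ≤ 4 * blk σ a + 5 ∧ (lo κ a).1 ≤ (hi κ a).1 := by
  rcases a with ⟨i, k⟩ | ⟨i, k⟩ | ⟨i, k⟩ | i | i | i | ⟨i, s⟩ | ⟨i, u, v, t⟩ | ⟨i, u, v, t⟩ <;>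
    simp only [blk, lo, hi]
  all_goals first | omega | skip
  · have := hσ k; omega
  · have := hσ v; have := hσ t; omega
  · have := hσ v; have := hσ t; omega

section aux

variable (g : Good n M κ NG PG) (hσ : ∀ k, σ k ≤ 1)
include g hσ

lemma dE {i u v t : ℕ} (h : NG i u v t) (hb : i + 1 - min (σ v) (σ t) = i) (d : El)
    (vd : Valid n M NG PG d) (hd : blk σ d = i) :
    ¬ (4 * i + 3 < (lo κ d).1 ∨ (4 * i + 3 = (lo κ d).1 ∧ 5 * κ i t + 1 < (lo κ d).2)) := by
  have hu := g.nlt i u v t h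
  rcases d with ⟨i', k'⟩ | ⟨i', k'⟩ | ⟨i', k'⟩ | i' | i' | i' | ⟨i', s'⟩ | ⟨i', u', v', t'⟩ | ⟨i', u', v', t'⟩ <;>
    simp only [blk, lo] at hd ⊢
  all_goals try omega
  · rintro (h1 | ⟨h1, h2⟩)
    · omega
    · have hi : i' = i := by omega
      subst hi
      have := g.n1 _ _ _ _ h k' vd.2
      by_cases hk : k' = t
      · subst hk; omega
      · have := this hk; omega
  · have hs := hσ v'
    have hs' := hσ t'
    rintro (h1 | ⟨h1, h2⟩)
    · omega
    · have hi : i' = i := by omega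
      subst hi
      obtain ⟨rfl, rfl, rfl⟩ := g.nuniq _ _ _ _ _ _ _ h vd
      have := g.n1 _ _ _ _ h u hu.1 hu.2.2.2.1
      omega
  · rintro (h1 | ⟨h1, h2⟩)
    · have hs := hσ v'
      have hs' := hσ t'
      have hi : i' = i := by omega
      subst hi
      exact g.np _ _ _ _ _ _ _ h vd
    · omega

lemma aE {i u v t : ℕ} (h : NG i u v t) (a : El) (va : Valid n M NG PG a)
    (ha : blk σ a = i + 1)
    (hlt : (hi κ a).1 < 4 * i + 3 ∨ ((hi κ a).1 = 4 * i + 3 ∧ (hi κ a).2 < 5 * κ i u + 3)) :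
    (hi κ a).1 ≤ 4 * i + 2 := by
  have hu := g.nlt i u v t h
  rcases a with ⟨i', k'⟩ | ⟨i', k'⟩ | ⟨i', k'⟩ | i' | i' | i' | ⟨i', s'⟩ | ⟨i', u', v', t'⟩ | ⟨i', u', v', t'⟩ <;>
    simp only [blk, hi] at ha hlt ⊢
  all_goals try omega
  · rcases hlt with h1 | ⟨h1, h2⟩
    · omega
    · have hi : i' = i := by omega
      subst hi
      obtain ⟨rfl, rfl, rfl⟩ := g.nuniq _ _ _ _ _ _ _ h va
      have := g.n1 _ _ _ _ h u hu.1 hu.2.2.2.1
      omega

lemma aF {i u v t : ℕ} (h : PG i u v t) (hb : i + 1 - max (σ v) (σ t) = i + 1) (a : El)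
    (va : Valid n M NG PG a) (ha : blk σ a = i + 1)
    (hlt : (hi κ a).1 < 4 * i + 5 ∨ ((hi κ a).1 = 4 * i + 5 ∧ (hi κ a).2 < 5 * κ (i + 1) t + 3)) :
    (hi κ a).1 ≤ 4 * i + 2 := by
  have hu := g.plt i u v t h
  rcases a with ⟨i', k'⟩ | ⟨i', k'⟩ | ⟨i', k'⟩ | i' | i' | i' | ⟨i', s'⟩ | ⟨i', u', v', t'⟩ | ⟨i', u', v', t'⟩ <;>
    simp only [blk, hi] at ha hlt ⊢
  all_goals try omega
  · have hs := hσ k'
    rcases hlt with h1 | ⟨h1, h2⟩
    · omega
    · have hi : i' = i := by omega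
      subst hi
      have := g.p1 _ _ _ _ h k' va.2
      by_cases hk : k' = t
      · subst hk; omega
      · have := this hk; omega
  · rcases hlt with h1 | ⟨h1, h2⟩
    · have hs := hσ v'
      have hs' := hσ t'
      have hi : i' = i := by omega
      subst hi
      exact (g.np _ _ _ _ _ _ _ va h).elim
    · omega
  · rcases hlt with h1 | ⟨h1, h2⟩
    · omega
    · have hi : i' = i := by omega
      subst hi
      obtain ⟨rfl, rfl, rfl⟩ := g.puniq _ _ _ _ _ _ _ h va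
      have := g.p1 _ _ _ _ h u hu.1 hu.2.2.2.1
      omega

lemma dF {i u v t : ℕ} (h : PG i u v t) (d : El)
    (vd : Valid n M NG PG d) (hd : blk σ d = i) :
    ¬ (4 * i + 5 < (lo κ d).1 ∨ (4 * i + 5 = (lo κ d).1 ∧ 5 * κ (i + 1) u + 1 < (lo κ d).2)) := by
  have hu := g.plt i u v t h
  rcases d with ⟨i', k'⟩ | ⟨i', k'⟩ | ⟨i', k'⟩ | i' | i' | i' | ⟨i', s'⟩ | ⟨i', u', v', t'⟩ | ⟨i', u', v', t'⟩ <;>
    simp only [blk, lo] at hd ⊢
  all_goals try omega
  · have hs := hσ v'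
    have hs' := hσ t'
    omega
  · have hs := hσ v'
    have hs' := hσ t'
    rintro (h1 | ⟨h1, h2⟩)
    · omega
    · have hi : i' = i := by omega
      subst hi
      obtain ⟨rfl, rfl, rfl⟩ := g.puniq _ _ _ _ _ _ _ h vd
      have := g.p1 _ _ _ _ h u hu.1 hu.2.2.2.1
      omega

lemma aW {j k : ℕ} (hk : k < n) (a : El) (va : Valid n M NG PG a) (ha : blk σ a = j)
    (hP : ∀ i u v t, PG i u v t → ¬ (σ u = 0 ∧ σ v = 0 ∧ σ t = 0))
    (h1 : (hi κ a).1 = 4 * j + 1) (h2 : 5 * κ j k ≤ (hi κ a).2) (h3 : (hi κ a).2 < 5 * κ j k + 4) :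
    σ k = 1 := by
  rcases a with ⟨i', k'⟩ | ⟨i', k'⟩ | ⟨i', k'⟩ | i' | i' | i' | ⟨i', s'⟩ | ⟨i', u', v', t'⟩ | ⟨i', u', v', t'⟩ <;>
    simp only [blk, hi] at ha h1 h2 h3
  all_goals try omega
  · have hj : j = i' + 1 := by omega
    subst hj
    have := g.inj (i' + 1) k' k va.2 hk (by omega)
    subst this
    omega
  · have hj : j = i' + 1 := by omega
    subst hj
    have hu := g.plt _ _ _ _ va
    have := g.inj (i' + 1) u' k hu.1 hk (by omega)
    subst this
    have h4 := hP _ _ _ _ va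
    have h5 := hσ u'
    omega

lemma dW {j k : ℕ} (hk : k < n) (d : El) (vd : Valid n M NG PG d) (hd : blk σ d = j)
    (hN : ∀ i u v t, NG i u v t → ¬ (σ u = 1 ∧ σ v = 1 ∧ σ t = 1))
    (h1 : (lo κ d).1 = 4 * j + 3) (h2 : 5 * κ j k < (lo κ d).2) (h3 : (lo κ d).2 ≤ 5 * κ j k + 4) :
    σ k = 0 := by
  rcases d with ⟨i', k'⟩ | ⟨i', k'⟩ | ⟨i', k'⟩ | i' | i' | i' | ⟨i', s'⟩ | ⟨i', u', v', t'⟩ | ⟨i', u', v', t'⟩ <;>
    simp only [blk, lo] at hd h1 h2 h3
  all_goals try omega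
  · have hj : j = i' := by omega
    subst hj
    have := g.inj j k' k vd.2 hk (by omega)
    subst this
    omega
  · have hj : j = i' := by omega
    subst hj
    have hu := g.nlt _ _ _ _ vd
    have := g.inj j u' k hu.1 hk (by omega)
    subst this
    have h4 := hN _ _ _ _ vd
    have h5 := hσ u'
    have h6 := hσ v'
    have h7 := hσ t'
    omega

end aux

theorem fwd (g : Good n M κ NG PG) (hσ : ∀ k, σ k ≤ 1)
    (hN : ∀ i u v t, NG i u v t → ¬ (σ u = 1 ∧ σ v = 1 ∧ σ t = 1))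
    (hP : ∀ i u v t, PG i u v t → ¬ (σ u = 0 ∧ σ v = 0 ∧ σ t = 0))
    (c a b d : El) (vc : Valid n M NG PG c) (va : Valid n M NG PG a) (vb : Valid n M NG PG b)
    (vd : Valid n M NG PG d) (j : ℕ) (hc : blk σ c = j) (ha : blk σ a = j) (hb : blk σ b = j)
    (hd : blk σ d = j) : ¬ Claw κ c a b d := by
  rintro ⟨h1, h2, h3, h4⟩
  have ra := blk_range (κ := κ) hσ a
  have rb := blk_range (κ := κ) hσ b
  have rc := blk_range (κ := κ) hσ c
  have rd := blk_range (κ := κ) hσ d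
  have xa : ∃ p : ℕ × ℕ, hi κ a = p := ⟨_, rfl⟩
  have xd : ∃ p : ℕ × ℕ, lo κ d = p := ⟨_, rfl⟩
  obtain ⟨pa, xa⟩ := xa
  obtain ⟨pd, xd⟩ := xd
  rw [xa] at h1 h2 ra
  rw [xd] at h3 h4 rd
  rcases c with ⟨i, k⟩ | ⟨i, k⟩ | ⟨i, k⟩ | i | i | i | ⟨i, s⟩ | ⟨i, u, v, t⟩ | ⟨i, u, v, t⟩ <;>
  rcases b with ⟨i', k'⟩ | ⟨i', k'⟩ | ⟨i', k'⟩ | i' | i' | i' | ⟨i', s'⟩ | ⟨i', u', v', t'⟩ | ⟨i', u', v', t'⟩
  all_goals simp only [blk, lo, hi] at hc hb h1 h2 h3 h4 rb rc
  all_goals try omega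
  · -- w.b
    have hi : i' = i := by omega
    subst hi
    have hk := g.inj i' k' k vb.2 vc.2 (by omega)
    subst hk
    have e1 := aW g hσ (j := i') (k := k') vb.2 a va (by omega) hP (by rw [xa]; omega)
      (by rw [xa]; omega) (by rw [xa]; omega)
    have e2 := dW g hσ (j := i') (k := k') vb.2 d vd (by omega) hN (by rw [xd]; omega)
      (by rw [xd]; omega) (by rw [xd]; omega)
    omega
  · -- w.e
    have hs := hσ v'
    have hs' := hσ t'
    have hi : i' = i := by omega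
    subst hi
    exact dE g hσ vb (by omega) d vd (by omega) (by rw [xd]; omega)
  · -- w.f
    have hs := hσ v'
    have hs' := hσ t'
    have := aF g hσ vb (by omega) a va (by omega) (by rw [xa]; omega)
    rw [xa] at this
    omega
  · -- b.e
    have hs := hσ v'
    have hs' := hσ t'
    have hi : i' = i := by omega
    subst hi
    exact dE g hσ vb (by omega) d vd (by omega) (by rw [xd]; omega)
  · -- b.f
    have hs := hσ v'
    have hs' := hσ t'
    have := aF g hσ vb (by omega) a va (by omega) (by rw [xa]; omega)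
    rw [xa] at this
    omega
  · -- x.x
    have hi : i' = i := by omega
    subst hi
    have hs := hσ k
    have hs' := hσ k'
    by_cases hj : i' = j
    · -- off
      rcases d with ⟨i, m⟩ | ⟨i, m⟩ | ⟨i, m⟩ | i | i | i | ⟨i, s⟩ | ⟨i, u, v, t⟩ | ⟨i, u, v, t⟩ <;>
        simp only [blk, lo] at hd xd <;> subst xd <;> simp only at h3 h4
      all_goals try omega
      · have t1 := hσ v
        have t2 := hσ t
        have hi : i = i' := by omega
        subst hi
        have hp := g.plt _ _ _ _ vd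
        have q1 := g.p1 _ _ _ _ vd k' vb.2
        have q2 := g.p1 _ _ _ _ vd k vc.2
        by_cases hk' : k' = t
        · subst hk'
          have q3 := g.p3 _ _ _ _ vd k vc.2
          by_cases hk : k = v
          · subst hk
            omega
          · by_cases hk2 : k = k'
            · subst hk2
              omega
            · have := q3 hk2 hk
              omega
        · have := q1 hk'
          omega
    · -- on
      rcases a with ⟨i, m⟩ | ⟨i, m⟩ | ⟨i, m⟩ | i | i | i | ⟨i, s⟩ | ⟨i, u, v, t⟩ | ⟨i, u, v, t⟩ <;>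
        simp only [blk, hi] at ha xa <;> subst xa <;> simp only at h1 h2
      all_goals try omega
      · have t1 := hσ v
        have t2 := hσ t
        have hi : i = i' := by omega
        subst hi
        have hp := g.nlt _ _ _ _ va
        have q1 := g.n1 _ _ _ _ va k' vb.2
        have q2 := g.n1 _ _ _ _ va k vc.2
        by_cases hk' : k' = t
        · subst hk'
          have q3 := g.n3 _ _ _ _ va k vc.2
          by_cases hk : k = v
          · subst hk
            omega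
          · by_cases hk2 : k = k'
            · subst hk2
              omega
            · have := q3 hk2 hk
              omega
        · have := q1 hk'
          omega
  · -- x.e
    have hs := hσ v'
    have hs' := hσ t'
    have hs'' := hσ k
    by_cases hj : i' = j
    · exact dE g hσ vb (by omega) d vd (by omega) (by rw [xd]; omega)
    · have := aE g hσ vb a va (by omega) (by rw [xa]; omega)
      rw [xa] at this
      omega
  · -- x.f
    have hs := hσ v'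
    have hs' := hσ t'
    have hs'' := hσ k
    by_cases hj : i' = j
    · exact dF g hσ vb d vd (by omega) (by rw [xd]; omega)
    · have := aF g hσ vb (by omega) a va (by omega) (by rw [xa]; omega)
      rw [xa] at this
      omega
  · -- A.f
    have hs := hσ v'
    have hs' := hσ t'
    have := aF g hσ vb (by omega) a va (by omega) (by rw [xa]; omega)
    rw [xa] at this
    omega
  · -- W.B
    rcases d with ⟨i, m⟩ | ⟨i, m⟩ | ⟨i, m⟩ | i | i | i | ⟨i, s⟩ | ⟨i, u, v, t⟩ | ⟨i, u, v, t⟩ <;>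
      simp only [blk, lo] at hd xd <;> subst xd <;> simp only at h3 h4 <;> omega
  · -- W.e
    have hs := hσ v'
    have hs' := hσ t'
    have hi : i' = i := by omega
    subst hi
    exact dE g hσ vb (by omega) d vd (by omega) (by rw [xd]; omega)
  · -- B.e
    have hs := hσ v'
    have hs' := hσ t'
    have hi : i' = i := by omega
    subst hi
    exact dE g hσ vb (by omega) d vd (by omega) (by rw [xd]; omega)
  · -- e.e
    have hi : i' = i := by omega
    subst hi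
    obtain ⟨rfl, rfl, rfl⟩ := g.nuniq _ _ _ _ _ _ _ vb vc
    omega
  · -- f.f
    have hi : i' = i := by omega
    subst hi
    obtain ⟨rfl, rfl, rfl⟩ := g.puniq _ _ _ _ _ _ _ vb vc
    omega

/-! ### From colourings to assignments -/

lemma three (f : ℕ → Bool) (s : ℕ) : ∃ a b c, s ≤ a ∧ a < b ∧ b < c ∧ c ≤ s + 4 ∧ f a = f b ∧
    f b = f c := by
  have key : ∀ a b c, s ≤ a → a < b → b < c → c ≤ s + 4 → f a = f b → f b = f c →
      ∃ a b c, s ≤ a ∧ a < b ∧ b < c ∧ c ≤ s + 4 ∧ f a = f b ∧ f b = f c :=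
    fun a b c h1 h2 h3 h4 h5 h6 => ⟨a, b, c, h1, h2, h3, h4, h5, h6⟩
  have k1 := key s (s + 1) (s + 2) (by omega) (by omega) (by omega) (by omega)
  have k2 := key s (s + 1) (s + 3) (by omega) (by omega) (by omega) (by omega)
  have k3 := key s (s + 1) (s + 4) (by omega) (by omega) (by omega) (by omega)
  have k4 := key s (s + 2) (s + 3) (by omega) (by omega) (by omega) (by omega)
  have k5 := key s (s + 2) (s + 4) (by omega) (by omega) (by omega) (by omega)
  have k6 := key s (s + 3) (s + 4) (by omega) (by omega) (by omega) (by omega)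
  have k7 := key (s + 1) (s + 2) (s + 3) (by omega) (by omega) (by omega) (by omega)
  have k8 := key (s + 1) (s + 2) (s + 4) (by omega) (by omega) (by omega) (by omega)
  have k9 := key (s + 1) (s + 3) (s + 4) (by omega) (by omega) (by omega) (by omega)
  have k10 := key (s + 2) (s + 3) (s + 4) (by omega) (by omega) (by omega) (by omega)
  generalize (∃ a b c, s ≤ a ∧ a < b ∧ b < c ∧ c ≤ s + 4 ∧ f a = f b ∧ f b = f c) = Q at *
  revert k1 k2 k3 k4 k5 k6 k7 k8 k9 k10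
  generalize f s = x0
  generalize f (s + 1) = x1
  generalize f (s + 2) = x2
  generalize f (s + 3) = x3
  generalize f (s + 4) = x4
  clear key
  cases x0 <;> cases x1 <;> cases x2 <;> cases x3 <;> cases x4 <;> simp

section bwd

variable (χ : El → Bool) (hχ : ∀ c a b d, Valid n M NG PG c → Valid n M NG PG a →
  Valid n M NG PG b → Valid n M NG PG d → χ a = χ c → χ b = χ c → χ d = χ c → ¬ Claw κ c a b d)
include hχ

lemma group {i s : ℕ} (hi' : i < M) (hs : s + 4 < 13) (c c' : El) (vc : Valid n M NG PG c)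
    (vc' : Valid n M NG PG c')
    (h1 : (lo κ c).1 < 4 * i + 2 ∨ ((lo κ c).1 = 4 * i + 2 ∧ (lo κ c).2 ≤ s))
    (h2 : 4 * i + 2 < (hi κ c).1 ∨ (4 * i + 2 = (hi κ c).1 ∧ s + 4 ≤ (hi κ c).2))
    (h3 : (lo κ c').1 < 4 * i + 2 ∨ ((lo κ c').1 = 4 * i + 2 ∧ (lo κ c').2 ≤ s))
    (h4 : 4 * i + 2 < (hi κ c').1 ∨ (4 * i + 2 = (hi κ c').1 ∧ s + 4 ≤ (hi κ c').2)) :
    χ c = χ c' := by
  obtain ⟨a1, a2, a3, g1, g2, g3, g4, g5, g6⟩ := three (fun s => χ (T i s)) s
  have key : ∀ c, Valid n M NG PG c →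
      ((lo κ c).1 < 4 * i + 2 ∨ ((lo κ c).1 = 4 * i + 2 ∧ (lo κ c).2 ≤ s)) →
      (4 * i + 2 < (hi κ c).1 ∨ (4 * i + 2 = (hi κ c).1 ∧ s + 4 ≤ (hi κ c).2)) →
      χ (T i a2) ≠ χ c := by
    intro c vc q1 q2 h
    refine hχ c (T i a1) (T i a2) (T i a3) vc ⟨hi', by omega⟩ ⟨hi', by omega⟩ ⟨hi', by omega⟩
      (g5.trans h) h (g6.symm.trans h) ?_
    refine ⟨?_, ?_, ?_, ?_⟩
    · show (lo κ c).1 < 4 * i + 2 ∨ ((lo κ c).1 = 4 * i + 2 ∧ (lo κ c).2 ≤ a1)
      omega
    · exact Or.inr ⟨rfl, g2⟩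
    · exact Or.inr ⟨rfl, g3⟩
    · show 4 * i + 2 < (hi κ c).1 ∨ (4 * i + 2 = (hi κ c).1 ∧ a3 ≤ (hi κ c).2)
      omega
  have k1 := key c vc h1 h2
  have k2 := key c' vc' h3 h4
  revert k1 k2
  cases χ c <;> cases χ c' <;> cases χ (T i a2) <;> simp

lemma colw {i k : ℕ} (hi' : i < M) (hk : k < n) : χ (w i k) = χ (W i) :=
  group χ hχ (i := i) (s := 1) hi' (by omega) _ _ ⟨hi', hk⟩ hi' (by simp only [lo, true_and]; omega)
    (by simp only [hi, true_and]; omega) (by simp only [lo, true_and]; omega) (by simp only [hi, true_and]; omega)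

lemma colb {i k : ℕ} (hi' : i < M) (hk : k < n) : χ (b i k) = χ (W i) :=
  group χ hχ (i := i) (s := 1) hi' (by omega) _ _ ⟨hi', hk⟩ hi' (by simp only [lo, true_and]; omega)
    (by simp only [hi, true_and]; omega) (by simp only [lo, true_and]; omega) (by simp only [hi, true_and]; omega)

lemma colA {i : ℕ} (hi' : i < M) : χ (A i) = χ (W i) :=
  group χ hχ (i := i) (s := 1) hi' (by omega) _ _ hi' hi' (by simp only [lo, true_and]; omega)
    (by simp only [hi, true_and]; omega) (by simp only [lo, true_and]; omega) (by simp only [hi, true_and]; omega)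

lemma colB {i : ℕ} (hi' : i < M) : χ (B i) = χ (W i) :=
  group χ hχ (i := i) (s := 8) hi' (by omega) _ _ hi' hi' (by simp only [lo, true_and]; omega)
    (by simp only [hi, true_and]; omega) (by simp only [lo, true_and]; omega) (by simp only [hi, true_and]; omega)

lemma alt {i : ℕ} (hi' : i + 1 < M) : χ (W (i + 1)) ≠ χ (W i) := by
  intro h
  refine hχ (W i) (A i) (B i) (A (i + 1)) (by simp only [Valid]; omega) (by simp only [Valid]; omega)
    (by simp only [Valid]; omega) (by simp only [Valid]; omega) (colA χ hχ (by omega))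
    (colB χ hχ (by omega)) ((colA χ hχ hi').trans h) ?_
  simp only [Claw, lo, hi, true_and]
  omega

lemma mono1 {i k : ℕ} (hi' : i + 2 < M) (hk : k < n) (h : χ (x i k) = χ (W (i + 1))) :
    χ (x (i + 1) k) = χ (W (i + 2)) := by
  have h1 := alt χ hχ (i := i + 1) hi'
  by_contra h2
  have h3 : χ (x (i + 1) k) = χ (W (i + 1)) := by
    revert h1 h2
    cases χ (x (i + 1) k) <;> cases χ (W (i + 1)) <;> cases χ (W (i + 1 + 1)) <;> simp
  have c1 := colw χ hχ (i := i + 1) (k := k) (by omega) hk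
  have c2 := colb χ hχ (i := i + 1) (k := k) (by omega) hk
  refine hχ (w (i + 1) k) (x i k) (b (i + 1) k) (x (i + 1) k) ⟨by omega, hk⟩ ⟨by omega, hk⟩
    ⟨by omega, hk⟩ ⟨by omega, hk⟩ (by rw [c1, h]) (by rw [c1, c2]) (by rw [c1, h3]) ?_
  simp only [Claw, lo, hi, true_and]
  omega

lemma mono {i i' k : ℕ} (hii : i ≤ i') (hi' : i' + 1 < M) (hk : k < n)
    (h : χ (x i k) = χ (W (i + 1))) : χ (x i' k) = χ (W (i' + 1)) := by
  induction i', hii using Nat.le_induction with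
  | base => exact h
  | succ m _ ih => exact mono1 χ hχ (by omega) hk (ih (by omega))

theorem bwd (g : Good n M κ NG PG) {i0 : ℕ} (h0 : i0 + 1 < M)
    (hP : ∀ i u v t, PG i u v t → i + 1 ≤ i0) (hN : ∀ i u v t, NG i u v t → i0 + 1 ≤ i) :
    ∃ s : ℕ → Bool, (∀ i u v t, PG i u v t → s u = true ∨ s v = true ∨ s t = true) ∧
      ∀ i u v t, NG i u v t → ¬ (s u = true ∧ s v = true ∧ s t = true) := by
  refine ⟨fun k => decide (χ (x i0 k) = χ (W (i0 + 1))), ?_, ?_⟩
  · intro i u v t h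
    simp only [decide_eq_true_eq]
    by_contra hcon
    push Not at hcon
    obtain ⟨n1, n2, n3⟩ := hcon
    obtain ⟨hu, hv, ht, hut, hvt, hiM⟩ := g.plt _ _ _ _ h
    have hi0 := hP _ _ _ _ h
    have m1 : χ (x (i + 1) u) ≠ χ (W (i + 2)) := fun q => n1 (mono χ hχ (by omega) h0 hu q)
    have m2 : χ (x i v) ≠ χ (W (i + 1)) := fun q => n2 (mono χ hχ (by omega) h0 hv q)
    have m3 : χ (x i t) ≠ χ (W (i + 1)) := fun q => n3 (mono χ hχ (by omega) h0 ht q)
    have a1 := alt χ hχ (i := i) (by omega)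
    have a2 := alt χ hχ (i := i + 1) (by omega)
    have m1' : χ (x (i + 1) u) = χ (W (i + 1)) := by
      revert a2 m1
      cases χ (x (i + 1) u) <;> cases χ (W (i + 1)) <;> cases χ (W (i + 1 + 1)) <;> simp
    have m2' : χ (x i v) = χ (W i) := by
      revert a1 m2
      cases χ (x i v) <;> cases χ (W (i + 1)) <;> cases χ (W i) <;> simp
    have m3' : χ (x i t) = χ (W i) := by
      revert a1 m3
      cases χ (x i t) <;> cases χ (W (i + 1)) <;> cases χ (W i) <;> simp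
    have q1 : χ (f i u v t) ≠ χ (W (i + 1)) := by
      intro q
      have c1 := colw χ hχ (i := i + 1) (k := u) (by omega) hu
      have c2 := colb χ hχ (i := i + 1) (k := u) (by omega) hu
      refine hχ (w (i + 1) u) (f i u v t) (b (i + 1) u) (x (i + 1) u) ⟨by omega, hu⟩ h
        ⟨by omega, hu⟩ ⟨by omega, hu⟩ (by rw [c1, q]) (by rw [c1, c2]) (by rw [c1, m1']) ?_
      simp only [Claw, lo, hi, true_and]
      omega
    have q2 : χ (f i u v t) = χ (W i) := by
      revert a1 q1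
      cases χ (f i u v t) <;> cases χ (W (i + 1)) <;> cases χ (W i) <;> simp
    have c1 := colw χ hχ (i := i) (k := v) (by omega) hv
    refine hχ (x i v) (w i v) (x i t) (f i u v t) ⟨by omega, hv⟩ ⟨by omega, hv⟩ ⟨by omega, ht⟩ h
      (by rw [m2', c1]) (by rw [m3', m2']) (by rw [q2, m2']) ?_
    have p1 := g.p1 _ _ _ _ h v hv hvt
    have p2 := g.p2 _ _ _ _ h
    simp only [Claw, lo, hi, true_and]
    omega
  · intro i u v t h
    simp only [decide_eq_true_eq]
    rintro ⟨n1, n2, n3⟩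
    obtain ⟨hu, hv, ht, hut, hvt, hipos, hiM⟩ := g.nlt _ _ _ _ h
    have hi0 := hN _ _ _ _ h
    obtain ⟨i1, rfl⟩ : ∃ i1, i = i1 + 1 := ⟨i - 1, by omega⟩
    have m1 : χ (x i1 u) = χ (W (i1 + 1)) := mono χ hχ (by omega) (by omega) hu n1
    have m2 : χ (x (i1 + 1) v) = χ (W (i1 + 2)) := mono χ hχ (by omega) (by omega) hv n2
    have m3 : χ (x (i1 + 1) t) = χ (W (i1 + 2)) := mono χ hχ (by omega) (by omega) ht n3
    have a2 := alt χ hχ (i := i1 + 1) (by omega)
    have q1 : χ (e (i1 + 1) u v t) ≠ χ (W (i1 + 1)) := by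
      intro q
      have c1 := colw χ hχ (i := i1 + 1) (k := u) (by omega) hu
      have c2 := colb χ hχ (i := i1 + 1) (k := u) (by omega) hu
      refine hχ (w (i1 + 1) u) (x i1 u) (b (i1 + 1) u) (e (i1 + 1) u v t) ⟨by omega, hu⟩
        ⟨by omega, hu⟩ ⟨by omega, hu⟩ h (by rw [c1, m1]) (by rw [c1, c2]) (by rw [c1, q]) ?_
      simp only [Claw, lo, hi, true_and]
      omega
    have q2 : χ (e (i1 + 1) u v t) = χ (W (i1 + 2)) := by
      revert a2 q1
      cases χ (e (i1 + 1) u v t) <;> cases χ (W (i1 + 1)) <;> cases χ (W (i1 + 1 + 1)) <;> simp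
    have c1 := colw χ hχ (i := i1 + 1 + 1) (k := v) (by omega) hv
    refine hχ (x (i1 + 1) v) (e (i1 + 1) u v t) (x (i1 + 1) t) (w (i1 + 1 + 1) v) ⟨by omega, hv⟩ h
      ⟨by omega, ht⟩ ⟨by omega, hv⟩ (by rw [m2, q2]) (by rw [m3, m2]) (by rw [c1, m2]) ?_
    have p1 := g.n1 _ _ _ _ h v hv hvt
    have p2 := g.n2 _ _ _ _ h
    simp only [Claw, lo, hi, true_and]
    omega

end bwd

end Pool.Agent.PropInt
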