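import Pool.Agent.Lib_helper79.PropInt.Defs

/-!
Roberts' theorem for families of intervals, and its consequence for partitions.
-/

set_option autoImplicit false

namespace Pool.Agent.PropInt

open Finset

lemma icc_meet {a b c d : ℝ} (h1 : a ≤ b) (h2 : c ≤ d) :
    (Set.Icc a b ∩ Set.Icc c d).Nonempty ↔ a ≤ d ∧ c ≤ b := by
  constructor
  · rintro ⟨x, ⟨h3, h4⟩, h5, h6⟩
    exact ⟨h3.trans h6, h5.trans h4⟩
  · rintro ⟨h3, h4⟩
    refine ⟨max a c, ⟨le_max_left _ _, max_le h1 h4⟩, le_max_right _ _, max_le h3 h2⟩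

section Rob

variable {ι : Type} [Fintype ι] (l r : ι → ℕ)

/-- number of intervals entirely to the left of `x` -/
def Lc (x : ι) : ℕ := (univ.filter fun a => r a < l x).card

/-- number of intervals not entirely to the right of `x` -/
def Rc (x : ι) : ℕ := (univ.filter fun d => l d ≤ r x).card

/-- sum -/
def Sg (x : ι) : ℕ := Lc l r x + Rc l r x

/-- new right end -/
def Re (x : ι) : ℕ := (univ.filter fun y => l y ≤ r x).sup (Sg l r)

variable {l r}

lemma Sg_le (x : ι) : Sg l r x ≤ 2 * Fintype.card ι := by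
  have h1 : Lc l r x ≤ Fintype.card ι := card_filter_le _ _
  have h2 : Rc l r x ≤ Fintype.card ι := card_filter_le _ _
  unfold Sg
  omega

lemma Lc_mono {x y : ι} (h : l x ≤ l y) : Lc l r x ≤ Lc l r y := by
  apply card_le_card
  intro a
  simp only [mem_filter, mem_univ, true_and]
  omega

lemma lt_of_Lc {x y : ι} (h : Lc l r x < Lc l r y) : ∃ a, r a < l y ∧ l x ≤ r a := by
  by_contra hc
  push Not at hc
  apply absurd h
  rw [not_lt]
  apply card_le_card
  intro a
  simp only [mem_filter, mem_univ, true_and]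
  exact fun h => hc a h

lemma lt_of_Rc {x y : ι} (h : Rc l r x < Rc l r y) : ∃ d, r x < l d ∧ l d ≤ r y := by
  by_contra hc
  push Not at hc
  apply absurd h
  rw [not_lt]
  apply card_le_card
  intro d
  simp only [mem_filter, mem_univ, true_and]
  intro h
  by_contra h'
  have := hc d (by omega)
  omega

variable (hnc : ∀ c a b d, ¬ (l c ≤ r a ∧ r a < l b ∧ r b < l d ∧ l d ≤ r c))
include hnc

lemma key1 {c b : ι} (h1 : Lc l r c < Lc l r b) : Rc l r c ≤ Rc l r b := by
  by_contra h2
  obtain ⟨a, ha1, ha2⟩ := lt_of_Lc h1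
  obtain ⟨d, hd1, hd2⟩ := lt_of_Rc (not_le.1 h2)
  exact hnc c a b d ⟨ha2, ha1, hd1, hd2⟩

lemma Sg_lt {c b : ι} (h1 : Lc l r c < Lc l r b) : Sg l r c < Sg l r b := by
  have := key1 hnc h1
  unfold Sg
  omega

lemma Rc_mono {c b : ι} (h : Sg l r c ≤ Sg l r b) : Rc l r c ≤ Rc l r b := by
  by_contra h2
  rcases lt_or_ge (Lc l r c) (Lc l r b) with h3 | h3
  · exact h2 (key1 hnc h3)
  · unfold Sg at h
    omega

lemma Re_mono {x y : ι} (h : Sg l r x ≤ Sg l r y) : Re l r x ≤ Re l r y := by
  have h1 := Rc_mono hnc h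
  unfold Re
  apply sup_mono
  by_contra h2
  have h3 : ∃ z, l z ≤ r x ∧ ¬ l z ≤ r y := by
    by_contra h4
    push Not at h4
    apply h2
    intro z
    simp only [mem_filter, mem_univ, true_and]
    exact h4 z
  obtain ⟨z, hz1, hz2⟩ := h3
  have : Rc l r y < Rc l r x := by
    apply card_lt_card
    rw [ssubset_iff_of_subset]
    · exact ⟨z, by simpa using hz1, by simpa using hz2⟩
    · intro w
      simp only [mem_filter, mem_univ, true_and]
      omega
  omega

lemma meet_iff (hlr : ∀ x, l x ≤ r x) (x y : ι) : Sg l r y ≤ Re l r x ↔ l y ≤ r x := by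
  constructor
  · intro h
    by_contra h1
    rw [not_le] at h1
    have h2 : Re l r x < Sg l r y := by
      unfold Re
      have hpos : 0 < Sg l r y := by
        unfold Sg
        have : 0 < Lc l r y := by
          apply card_pos.2
          exact ⟨x, by simpa using h1⟩
        omega
      rw [Finset.sup_lt_iff (by simpa using hpos)]
      intro z hz
      simp only [mem_filter, mem_univ, true_and] at hz
      apply Sg_lt hnc
      apply card_lt_card
      rw [ssubset_iff_of_subset]
      · exact ⟨x, by simpa using h1, by simpa using hz⟩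
      · intro w
        simp only [mem_filter, mem_univ, true_and]
        omega
    omega
  · intro h
    unfold Re
    exact le_sup (f := Sg l r) (by simpa using h)

/-- Roberts' theorem for a finite family of intervals. -/
theorem roberts (hlr : ∀ x, l x ≤ r x) : ∃ l' r' : ι → ℝ, (∀ x, l' x ≤ r' x) ∧
    (∀ x y, l' y ≤ r' x ↔ l y ≤ r x) ∧ ∀ u v, ¬ Set.Icc (l' u) (r' u) ⊂ Set.Icc (l' v) (r' v) := by
  set K := 2 * Fintype.card ι + 1 with hK
  refine ⟨fun x => ((K * Sg l r x : ℕ) : ℝ), fun x => ((K * Re l r x + Sg l r x : ℕ) : ℝ), ?_, ?_, ?_⟩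
  · intro x
    have h := (meet_iff hnc hlr x x).2 (hlr x)
    have : K * Sg l r x ≤ K * Re l r x := Nat.mul_le_mul_left _ h
    show ((K * Sg l r x : ℕ) : ℝ) ≤ ((K * Re l r x + Sg l r x : ℕ) : ℝ)
    rw [Nat.cast_le]
    omega
  · intro x y
    rw [← meet_iff hnc hlr x y, Nat.cast_le]
    have h1 := Sg_le (l := l) (r := r) x
    constructor
    · intro h
      by_contra h2
      have : K * (Re l r x + 1) ≤ K * Sg l r y := Nat.mul_le_mul_left _ (by omega)
      rw [Nat.mul_add] at this
      omega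
    · intro h
      have : K * Sg l r y ≤ K * Re l r x := Nat.mul_le_mul_left _ h
      omega
  · intro u v h
    have h0 : ∀ x, K * Sg l r x ≤ K * Re l r x + Sg l r x := by
      intro x
      have h := (meet_iff hnc hlr x x).2 (hlr x)
      have : K * Sg l r x ≤ K * Re l r x := Nat.mul_le_mul_left _ h
      omega
    have h1 : ((K * Sg l r v : ℕ) : ℝ) ≤ ((K * Sg l r u : ℕ) : ℝ) ∧
        ((K * Re l r u + Sg l r u : ℕ) : ℝ) ≤ ((K * Re l r v + Sg l r v : ℕ) : ℝ) := by
      have := h.1
      rwa [Set.Icc_subset_Icc_iff (Nat.cast_le.2 (h0 u))] at this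
    rw [Nat.cast_le, Nat.cast_le] at h1
    obtain ⟨h2, h3⟩ := h1
    have h4 : Sg l r v ≤ Sg l r u := Nat.le_of_mul_le_mul_left h2 (by omega)
    have h5 := Re_mono hnc h4
    have h6 : K * Re l r v ≤ K * Re l r u := Nat.mul_le_mul_left _ h5
    have h7 : Sg l r v = Sg l r u := by omega
    have h8 : K * Re l r v = K * Re l r u := by omega
    apply h.2
    simp only [h7, h8]
    exact le_rfl

end Rob

/-- A proper interval representation contains no claw. -/
lemma no_claw {V : Type} {G : SimpleGraph V} (h : IsProperIntervalGraph G) {c a b d : V}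
    (hab : a ≠ b) (had : a ≠ d) (hbd : b ≠ d) (hca : G.Adj c a) (hcb : G.Adj c b) (hcd : G.Adj c d)
    (nab : ¬ G.Adj a b) (nad : ¬ G.Adj a d) (nbd : ¬ G.Adj b d) : False := by
  obtain ⟨l, r, ⟨h1, h2⟩, h3⟩ := h
  have adj : ∀ u v, u ≠ v → (G.Adj u v ↔ l u ≤ r v ∧ l v ≤ r u) := by
    intro u v huv
    rw [h2 u v huv, icc_meet (h1 u) (h1 v)]
  have nc : ∀ u v, ¬ (l v < l u ∧ r u < r v) := by
    intro u v h
    apply h3 u v
    rw [Set.ssubset_iff_subset_ne]
    refine ⟨Set.Icc_subset_Icc h.1.le h.2.le, ?_⟩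
    intro h4
    have h5 : l v ∈ Set.Icc (l u) (r u) := by
      rw [h4]
      exact ⟨le_rfl, h1 v⟩
    linarith [h5.1, h.1]
  rw [adj _ _ hca.ne] at hca
  rw [adj _ _ hcb.ne] at hcb
  rw [adj _ _ hcd.ne] at hcd
  rw [adj _ _ hab] at nab
  rw [adj _ _ had] at nad
  rw [adj _ _ hbd] at nbd
  have n1 := nc a c
  have n2 := nc b c
  have n3 := nc d c
  have q1 := h1 a
  have q2 := h1 b
  have q3 := h1 d
  have q4 := h1 c
  simp only [not_and_or, not_le, not_lt] at nab nad nbd n1 n2 n3
  rcases nab with nab | nab <;> rcases nad with nad | nad <;> rcases nbd with nbd | nbd <;>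
    rcases n1 with n1 | n1 <;> rcases n2 with n2 | n2 <;> rcases n3 with n3 | n3 <;> linarith

/-! ### Lists of intervals -/

/-- Adjacency lists of the intersection graph of a list of intervals. -/
def adjLists (I : List (ℕ × ℕ)) : List (List ℕ) :=
  (List.range I.length).map fun u => (List.range I.length).filter fun v =>
    !decide (u = v) && (decide ((I.getD u (0, 0)).1 ≤ (I.getD v (0, 0)).2) &&
      decide ((I.getD v (0, 0)).1 ≤ (I.getD u (0, 0)).2))

lemma length_adjLists (I : List (ℕ × ℕ)) : (adjLists I).length = I.length := by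
  simp [adjLists]

lemma adj_iff (I : List (ℕ × ℕ)) (u v : Fin (adjLists I).length) :
    (graphOf (adjLists I)).Adj u v ↔ u ≠ v ∧ (I.getD u (0, 0)).1 ≤ (I.getD v (0, 0)).2 ∧
      (I.getD v (0, 0)).1 ≤ (I.getD u (0, 0)).2 := by
  have hu := u.2
  have hv := v.2
  simp only [length_adjLists] at hu hv
  unfold graphOf
  rw [SimpleGraph.fromRel_adj]
  have : ∀ x y : Fin (adjLists I).length, ((y : ℕ) ∈ (adjLists I)[(x : ℕ)]) ↔
      (x ≠ y ∧ (I.getD x (0, 0)).1 ≤ (I.getD y (0, 0)).2 ∧
      (I.getD y (0, 0)).1 ≤ (I.getD x (0, 0)).2) := by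
    intro x y
    have hx := x.2
    have hy := y.2
    simp only [length_adjLists] at hx hy
    simp only [adjLists, List.getElem_map, List.getElem_range, List.mem_filter, List.mem_range,
      Bool.and_eq_true, Bool.not_eq_true', decide_eq_false_iff_not, decide_eq_true_eq, hy, true_and]
    show _ ↔ ¬ (x = y) ∧ _
    rw [Fin.ext_iff]
  rw [this, this]
  constructor
  · rintro ⟨h1, h2 | h2⟩
    · exact h2
    · exact ⟨h1, h2.2.2, h2.2.1⟩
  · intro h
    exact ⟨h.1, Or.inl h⟩

lemma isInterval_adjLists (I : List (ℕ × ℕ)) (hI : ∀ p ∈ I, p.1 ≤ p.2) :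
    IsIntervalGraph (graphOf (adjLists I)) := by
  have hle : ∀ u : Fin (adjLists I).length, (I.getD u (0, 0)).1 ≤ (I.getD u (0, 0)).2 := by
    intro u
    have hu := u.2
    simp only [length_adjLists] at hu
    rw [List.getD_eq_getElem _ _ hu]
    exact hI _ (List.getElem_mem _)
  refine ⟨fun u => ((I.getD u (0, 0)).1 : ℝ), fun u => ((I.getD u (0, 0)).2 : ℝ), ?_, ?_⟩
  · intro u
    exact Nat.cast_le.2 (hle u)
  · intro u v huv
    rw [adj_iff, icc_meet (Nat.cast_le.2 (hle u)) (Nat.cast_le.2 (hle v)), Nat.cast_le,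
      Nat.cast_le]
    simp [huv]

lemma partitionable_iff (I : List (ℕ × ℕ)) (hI : ∀ p ∈ I, p.1 ≤ p.2) :
    Partitionable (graphOf (adjLists I)) ↔ ∃ χ : ℕ × ℕ → Bool, ∀ c ∈ I, ∀ a ∈ I, ∀ b ∈ I, ∀ d ∈ I,
      χ a = χ c → χ b = χ c → χ d = χ c →
        ¬ (c.1 ≤ a.2 ∧ a.2 < b.1 ∧ b.2 < d.1 ∧ d.1 ≤ c.2) := by
  have hle : ∀ u : Fin (adjLists I).length, (I.getD u (0, 0)).1 ≤ (I.getD u (0, 0)).2 := by
    intro u
    have hu := u.2
    simp only [length_adjLists] at hu
    rw [List.getD_eq_getElem _ _ hu]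
    exact hI _ (List.getElem_mem _)
  have hmem : ∀ u : Fin (adjLists I).length, I.getD u (0, 0) ∈ I := by
    intro u
    have hu := u.2
    simp only [length_adjLists] at hu
    rw [List.getD_eq_getElem _ _ hu]
    exact List.getElem_mem _
  constructor
  · rintro ⟨A, hA, hB⟩
    classical
    have hidx : ∀ p ∈ I, ∃ u : Fin (adjLists I).length, I.getD u (0, 0) = p := by
      intro p hp
      obtain ⟨k, hk, hk'⟩ := List.getElem_of_mem hp
      refine ⟨⟨k, by rw [length_adjLists]; exact hk⟩, ?_⟩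
      simp only
      rw [List.getD_eq_getElem _ _ hk, hk']
    choose ix hix using hidx
    refine ⟨fun p => if h : p ∈ I then decide (ix p h ∈ A) else false, ?_⟩
    intro c hc a ha b hb d hd
    simp only [hc, ha, hb, hd, dif_pos, decide_eq_decide]
    rintro e1 e2 e3 ⟨h1, h2, h3, h4⟩
    have la := hI a ha
    have lb := hI b hb
    have lc := hI c hc
    have ld := hI d hd
    -- common argument
    have main : ∀ S : Set (Fin (adjLists I).length), IsProperIntervalGraph
        ((graphOf (adjLists I)).induce S) → ix c hc ∈ S → ix a ha ∈ S → ix b hb ∈ S →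
        ix d hd ∈ S → False := by
      intro S hS mc ma mb md
      have key : ∀ p q (hp : p ∈ I) (hq : q ∈ I) (mp : ix p hp ∈ S) (mq : ix q hq ∈ S),
          ((graphOf (adjLists I)).induce S).Adj ⟨ix p hp, mp⟩ ⟨ix q hq, mq⟩ ↔
            p ≠ q ∧ p.1 ≤ q.2 ∧ q.1 ≤ p.2 := by
        intro p q hp hq mp mq
        rw [SimpleGraph.comap_adj]
        simp only [Function.Embedding.subtype_apply]
        rw [adj_iff, hix p hp, hix q hq]
        constructor
        · rintro ⟨g1, g2⟩
          refine ⟨?_, g2⟩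
          rintro rfl
          exact g1 rfl
        · rintro ⟨g1, g2⟩
          refine ⟨?_, g2⟩
          intro g3
          apply g1
          rw [← hix p hp, ← hix q hq, g3]
      have hne : ∀ p q (hp : p ∈ I) (hq : q ∈ I) (mp : ix p hp ∈ S) (mq : ix q hq ∈ S), p ≠ q →
          (⟨ix p hp, mp⟩ : S) ≠ ⟨ix q hq, mq⟩ := by
        intro p q hp hq mp mq hpq h
        apply hpq
        rw [Subtype.mk.injEq] at h
        rw [← hix p hp, ← hix q hq, h]
      have nab : a ≠ b := by rintro rfl; omega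
      have nad : a ≠ d := by rintro rfl; omega
      have nbd : b ≠ d := by rintro rfl; omega
      have nca : c ≠ a := by rintro rfl; omega
      have ncb : c ≠ b := by rintro rfl; omega
      have ncd : c ≠ d := by rintro rfl; omega
      refine no_claw hS (c := ⟨ix c hc, mc⟩) (a := ⟨ix a ha, ma⟩) (b := ⟨ix b hb, mb⟩) (d := ⟨ix d hd, md⟩)
        (hne _ _ ha hb _ _ nab) (hne _ _ ha hd _ _ nad) (hne _ _ hb hd _ _ nbd)
        ?_ ?_ ?_ ?_ ?_ ?_
      · rw [key c a hc ha]; exact ⟨nca, by omega, by omega⟩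
      · rw [key c b hc hb]; exact ⟨ncb, by omega, by omega⟩
      · rw [key c d hc hd]; exact ⟨ncd, by omega, by omega⟩
      · rw [key a b ha hb]; omega
      · rw [key a d ha hd]; omega
      · rw [key b d hb hd]; omega
    by_cases hcA : ix c hc ∈ A
    · exact main A hA hcA (e1.2 hcA) (e2.2 hcA) (e3.2 hcA)
    · exact main Aᶜ hB hcA (fun h => hcA (e1.1 h)) (fun h => hcA (e2.1 h)) (fun h => hcA (e3.1 h))
  · rintro ⟨χ, hχ⟩
    have main : ∀ S : Set (Fin (adjLists I).length),
        (∀ u ∈ S, ∀ v ∈ S, χ (I.getD u (0, 0)) = χ (I.getD v (0, 0))) →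
        IsProperIntervalGraph ((graphOf (adjLists I)).induce S) := by
      intro S hS
      classical
      obtain ⟨l', r', g1, g2, g3⟩ := roberts (ι := S) (l := fun u => (I.getD u.1 (0, 0)).1)
        (r := fun u => (I.getD u.1 (0, 0)).2) (by
          rintro ⟨c, hc⟩ ⟨a, ha⟩ ⟨b, hb⟩ ⟨d, hd⟩
          exact hχ _ (hmem c) _ (hmem a) _ (hmem b) _ (hmem d) (hS a ha c hc) (hS b hb c hc)
            (hS d hd c hc)) (fun u => hle u.1)
      refine ⟨l', r', ⟨g1, ?_⟩, g3⟩
      intro u v huv
      rw [SimpleGraph.comap_adj]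
      simp only [Function.Embedding.subtype_apply]
      rw [adj_iff, icc_meet (g1 u) (g1 v), g2, g2]
      have : u.1 ≠ v.1 := fun h => huv (Subtype.ext h)
      simp only [ne_eq, this, not_false_eq_true, true_and]
    refine ⟨{u | χ (I.getD u (0, 0)) = true}, main _ ?_, main _ ?_⟩
    · intro u hu v hv
      rw [Set.mem_ofPred_eq] at hu hv
      rw [hu, hv]
    · intro u hu v hv
      rw [Set.mem_compl_iff, Set.mem_ofPred_eq, Bool.not_eq_true] at hu hv
      rw [hu, hv]

end Pool.Agent.PropInt
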