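import Pool.Agent.Lib_helper79.PropInt.Geo
import Pool.Agent.Lib_helper79.PropInt.Roberts

/-!
The interval family of an instance of NAE-3-SAT.
-/

set_option autoImplicit false

namespace Pool.Agent.PropInt

open El List

/-- Make the last variable of each clause different from the two others. -/
def norm (F : List (ℕ × ℕ × ℕ)) : List (ℕ × ℕ × ℕ) := F.flatMap fun c =>
  if c.2.2 = c.1 then
    (if c.2.2 = c.2.1 then [(0, 0, 1), (1, 1, 2), (2, 2, 0)] else [(c.1, c.1, c.2.1)])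
  else (if c.2.2 = c.2.1 then [(c.2.1, c.2.1, c.1)] else [c])

lemma norm_ne {F : List (ℕ × ℕ × ℕ)} {c : ℕ × ℕ × ℕ} (h : c ∈ norm F) :
    c.1 ≠ c.2.2 ∧ c.2.1 ≠ c.2.2 := by
  unfold norm at h
  rw [mem_flatMap] at h
  obtain ⟨c', _, h⟩ := h
  split_ifs at h with h1 h2 h3
  · simp only [mem_cons, not_mem_nil, or_false] at h
    rcases h with rfl | rfl | rfl <;> simp
  · simp only [mem_cons, not_mem_nil, or_false] at h
    subst h
    simp only
    constructor <;> omega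
  · simp only [mem_cons, not_mem_nil, or_false] at h
    subst h
    simp only
    constructor <;> omega
  · simp only [mem_cons, not_mem_nil, or_false] at h
    subst h
    constructor <;> omega

lemma norm_iff (f : ℕ → Bool) (F : List (ℕ × ℕ × ℕ)) :
    (∀ c ∈ norm F, ¬ (f c.1 = f c.2.1 ∧ f c.2.1 = f c.2.2)) ↔
      ∀ c ∈ F, ¬ (f c.1 = f c.2.1 ∧ f c.2.1 = f c.2.2) := by
  unfold norm
  simp only [mem_flatMap]
  constructor
  · intro h c hc
    have h' := fun c' (h1 : c' ∈ _) => h c' ⟨c, hc, h1⟩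
    clear h
    obtain ⟨a, b, c⟩ := c
    simp only at h' ⊢
    split_ifs at h' with h1 h2 h3
    · exfalso
      have k1 := h' (0, 0, 1) (by simp)
      have k2 := h' (1, 1, 2) (by simp)
      have k3 := h' (2, 2, 0) (by simp)
      simp only [true_and] at k1 k2 k3
      revert k1 k2 k3
      cases f 0 <;> cases f 1 <;> cases f 2 <;> simp
    · have k1 := h' (a, a, b) (by simp)
      simp only [true_and] at k1
      rintro ⟨g1, g2⟩
      exact k1 g1
    · have k1 := h' (b, b, a) (by simp)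
      simp only [true_and] at k1
      rintro ⟨g1, g2⟩
      exact k1 g1.symm
    · exact h' (a, b, c) (by simp)
  · rintro h c' ⟨c, hc, h1⟩
    have h2 := h c hc
    clear h
    obtain ⟨a, b, c⟩ := c
    simp only at h1 h2
    split_ifs at h1 with h3 h4 h5
    · subst h3
      subst h4
      simp at h2
    · simp only [mem_cons, not_mem_nil, or_false] at h1
      subst h1
      subst h3
      simp only [true_and]
      intro g
      exact h2 ⟨g, g.symm⟩
    · simp only [mem_cons, not_mem_nil, or_false] at h1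
      subst h1
      subst h5
      simp only [true_and]
      intro g
      exact h2 ⟨g.symm, rfl⟩
    · simp only [mem_cons, not_mem_nil, or_false] at h1
      subst h1
      exact h2

/-- number of wires -/
def nw (C : List (ℕ × ℕ × ℕ)) : ℕ :=
  (C.flatMap fun c => replicate (c.1 + c.2.1 + c.2.2 + 1) (0 : ℕ)).length

lemma lt_nw {C : List (ℕ × ℕ × ℕ)} {c : ℕ × ℕ × ℕ} (h : c ∈ C) :
    c.1 < nw C ∧ c.2.1 < nw C ∧ c.2.2 < nw C := by
  unfold nw
  have : c.1 + c.2.1 + c.2.2 + 1 ≤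
      (C.flatMap fun c => replicate (c.1 + c.2.1 + c.2.2 + 1) (0 : ℕ)).length := by
    induction C with
    | nil => simp at h
    | cons a C ih =>
      rw [flatMap_cons, length_append, length_replicate]
      rcases mem_cons.1 h with rfl | h
      · omega
      · have := ih h
        omega
  omega

/-- zone numbers -/
def zone (C : List (ℕ × ℕ × ℕ)) (i k : ℕ) : ℕ :=
  if i < 2 * C.length then
    (if k = (C.getD (i / 2) (0, 0, 0)).2.1 ∧ i % 2 = 0 then 0 else
      if k = (C.getD (i / 2) (0, 0, 0)).2.2 then 1 else k + 2)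
  else
    (if k = (C.getD ((i - 2 * C.length) / 2) (0, 0, 0)).2.2 then nw C + 2 else
      if k = (C.getD ((i - 2 * C.length) / 2) (0, 0, 0)).2.1 ∧ i % 2 = 1 then nw C + 3 else k + 2)

/-- the clause gadgets on the right side -/
def NGa (C : List (ℕ × ℕ × ℕ)) (i u v t : ℕ) : Prop :=
  ∃ j < C.length, i = 2 * C.length + 2 * j ∧ C.getD j (0, 0, 0) = (u, v, t)

/-- the clause gadgets on the left side -/
def PGa (C : List (ℕ × ℕ × ℕ)) (i u v t : ℕ) : Prop :=
  ∃ j < C.length, i = 2 * j ∧ C.getD j (0, 0, 0) = (u, v, t)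

lemma good (C : List (ℕ × ℕ × ℕ)) (hC : ∀ c ∈ C, c.1 ≠ c.2.2 ∧ c.2.1 ≠ c.2.2) :
    Good (nw C) (4 * C.length) (zone C) (NGa C) (PGa C) := by
  have mem : ∀ j < C.length, C.getD j (0, 0, 0) ∈ C := by
    intro j hj
    rw [getD_eq_getElem _ _ hj]
    exact getElem_mem _
  have zN : ∀ j < C.length, ∀ k, zone C (2 * C.length + 2 * j) k =
      if k = (C.getD j (0, 0, 0)).2.2 then nw C + 2 else k + 2 := by
    intro j hj k
    unfold zone
    have h1 : ¬ 2 * C.length + 2 * j < 2 * C.length := by omega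
    have h2 : (2 * C.length + 2 * j - 2 * C.length) / 2 = j := by omega
    have h3 : ¬ (2 * C.length + 2 * j) % 2 = 1 := by omega
    rw [if_neg h1, h2]
    simp only [h3, and_false, if_false]
  have zN' : ∀ j < C.length, ∀ k, zone C (2 * C.length + 2 * j + 1) k =
      if k = (C.getD j (0, 0, 0)).2.2 then nw C + 2 else
        if k = (C.getD j (0, 0, 0)).2.1 then nw C + 3 else k + 2 := by
    intro j hj k
    unfold zone
    have h1 : ¬ 2 * C.length + 2 * j + 1 < 2 * C.length := by omega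
    have h2 : (2 * C.length + 2 * j + 1 - 2 * C.length) / 2 = j := by omega
    have h3 : (2 * C.length + 2 * j + 1) % 2 = 1 := by omega
    rw [if_neg h1, h2]
    simp only [h3, and_true]
  have zP : ∀ j < C.length, ∀ k, zone C (2 * j) k =
      if k = (C.getD j (0, 0, 0)).2.1 then 0 else
        if k = (C.getD j (0, 0, 0)).2.2 then 1 else k + 2 := by
    intro j hj k
    unfold zone
    have h1 : 2 * j < 2 * C.length := by omega
    have h2 : (2 * j) / 2 = j := by omega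
    have h3 : (2 * j) % 2 = 0 := by omega
    rw [if_pos h1, h2]
    simp only [h3, and_true]
  have zP' : ∀ j < C.length, ∀ k, zone C (2 * j + 1) k =
      if k = (C.getD j (0, 0, 0)).2.2 then 1 else k + 2 := by
    intro j hj k
    unfold zone
    have h1 : 2 * j + 1 < 2 * C.length := by omega
    have h2 : (2 * j + 1) / 2 = j := by omega
    have h3 : ¬ (2 * j + 1) % 2 = 0 := by omega
    rw [if_pos h1, h2]
    simp only [h3, and_false, if_false]
  refine ⟨?_, ?_, ?_, ?_, ?_, ?_, ?_, ?_, ?_, ?_, ?_, ?_⟩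
  · intro i k k' hk hk' h
    unfold zone at h
    split_ifs at h <;> omega
  · rintro i u v t ⟨j, hj, rfl, h⟩
    have h1 := lt_nw (mem j hj)
    have h2 := hC _ (mem j hj)
    rw [h] at h1 h2
    simp only at h1 h2
    omega
  · rintro i u v t ⟨j, hj, rfl, h⟩
    have h1 := lt_nw (mem j hj)
    have h2 := hC _ (mem j hj)
    rw [h] at h1 h2
    simp only at h1 h2
    omega
  · rintro i u v t ⟨j, hj, rfl, h⟩ k hk hkt
    rw [zN j hj, zN j hj, h]
    simp only [hkt, if_false, if_true]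
    omega
  · rintro i u v t ⟨j, hj, rfl, h⟩
    have h2 := hC _ (mem j hj)
    rw [zN' j hj, zN' j hj]
    rw [h] at h2 ⊢
    simp only at h2
    simp only [if_true, h2.2, if_false]
    omega
  · rintro i u v t ⟨j, hj, rfl, h⟩ k hk hkt hkv
    rw [zN' j hj, zN' j hj, h]
    simp only [hkt, hkv, if_false, if_true]
    omega
  · rintro i u v t ⟨j, hj, rfl, h⟩ k hk hkt
    rw [zP' j hj, zP' j hj, h]
    simp only [hkt, if_false, if_true]
    omega
  · rintro i u v t ⟨j, hj, rfl, h⟩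
    have h2 := hC _ (mem j hj)
    rw [zP j hj, zP j hj]
    rw [h] at h2 ⊢
    simp only at h2
    simp only [if_true, h2.2.symm, if_false]
    omega
  · rintro i u v t ⟨j, hj, rfl, h⟩ k hk hkt hkv
    have h2 := hC _ (mem j hj)
    rw [zP j hj, zP j hj]
    rw [h] at h2 ⊢
    simp only at h2
    simp only [hkt, hkv, h2.2.symm, if_false, if_true]
    omega
  · rintro i u v t u' v' t' ⟨j, hj, h1, h⟩ ⟨j', hj', h1', h'⟩
    have : j' = j := by omega
    subst this
    rw [h] at h'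
    simpa using h'
  · rintro i u v t u' v' t' ⟨j, hj, h1, h⟩ ⟨j', hj', h1', h'⟩
    have : j' = j := by omega
    subst this
    rw [h] at h'
    simpa using h'
  · rintro i u v t u' v' t' ⟨j, hj, h1, h⟩ ⟨j', hj', h1', h'⟩
    omega

/-! ### Coordinates -/

/-- the number of a point -/
def pt (n : ℕ) (p : ℕ × ℕ) : ℕ := p.1 * (5 * (n + 4)) + p.2

lemma pt_lt {n : ℕ} {p q : ℕ × ℕ} (hp : p.2 < 5 * (n + 4)) (hq : q.2 < 5 * (n + 4)) :
    pt n p < pt n q ↔ p.1 < q.1 ∨ (p.1 = q.1 ∧ p.2 < q.2) := by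
  unfold pt
  constructor
  · intro h
    by_contra hc
    push Not at hc
    obtain ⟨h1, h2⟩ := hc
    rcases Nat.lt_or_ge q.1 p.1 with h3 | h3
    · have : (q.1 + 1) * (5 * (n + 4)) ≤ p.1 * (5 * (n + 4)) := Nat.mul_le_mul_right _ h3
      rw [Nat.succ_mul] at this
      omega
    · have h4 : p.1 = q.1 := by omega
      have := h2 h4
      rw [h4] at h
      omega
  · rintro (h | ⟨h, h'⟩)
    · have : (p.1 + 1) * (5 * (n + 4)) ≤ q.1 * (5 * (n + 4)) := Nat.mul_le_mul_right _ h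
      rw [Nat.succ_mul] at this
      omega
    · rw [h]
      omega

lemma pt_le {n : ℕ} {p q : ℕ × ℕ} (hp : p.2 < 5 * (n + 4)) (hq : q.2 < 5 * (n + 4)) :
    pt n p ≤ pt n q ↔ p.1 < q.1 ∨ (p.1 = q.1 ∧ p.2 ≤ q.2) := by
  have := pt_lt (n := n) hq hp
  rw [← not_lt, this]
  omega

/-- the interval of a label -/
def iv (C : List (ℕ × ℕ × ℕ)) (a : El) : ℕ × ℕ :=
  (pt (nw C) (lo (zone C) a), pt (nw C) (hi (zone C) a))

lemma zone_le (C : List (ℕ × ℕ × ℕ)) (i : ℕ) {k : ℕ} (hk : k < nw C) : zone C i k ≤ nw C + 3 := by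
  unfold zone
  split_ifs <;> omega

/-- validity for the concrete instance -/
def Vd (C : List (ℕ × ℕ × ℕ)) (a : El) : Prop := Valid (nw C) (4 * C.length) (NGa C) (PGa C) a

lemma minor (C : List (ℕ × ℕ × ℕ)) (hC : ∀ c ∈ C, c.1 ≠ c.2.2 ∧ c.2.1 ≠ c.2.2) (a : El)
    (va : Vd C a) : (lo (zone C) a).2 < 5 * (nw C + 4) ∧ (hi (zone C) a).2 < 5 * (nw C + 4) := by
  have g := good C hC
  unfold Vd at va
  rcases a with ⟨i, k⟩ | ⟨i, k⟩ | ⟨i, k⟩ | i | i | i | ⟨i, s⟩ | ⟨i, u, v, t⟩ | ⟨i, u, v, t⟩ <;>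
    simp only [lo, hi]
  · have := zone_le C i va.2; omega
  · have := zone_le C i va.2; omega
  · have := zone_le C i va.2; have := zone_le C (i + 1) va.2; omega
  · omega
  · omega
  · omega
  · have := va.2; omega
  · have h := g.nlt _ _ _ _ va
    have := zone_le C i h.1; have := zone_le C i h.2.2.1; omega
  · have h := g.plt _ _ _ _ va
    have := zone_le C (i + 1) h.1; have := zone_le C (i + 1) h.2.2.1; omega

lemma claw_iff (C : List (ℕ × ℕ × ℕ)) (hC : ∀ c ∈ C, c.1 ≠ c.2.2 ∧ c.2.1 ≠ c.2.2) (c a b d : El)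
    (vc : Vd C c) (va : Vd C a) (vb : Vd C b) (vd : Vd C d) :
    ((iv C c).1 ≤ (iv C a).2 ∧ (iv C a).2 < (iv C b).1 ∧ (iv C b).2 < (iv C d).1 ∧
      (iv C d).1 ≤ (iv C c).2) ↔ Claw (zone C) c a b d := by
  have mc := minor C hC c vc
  have ma := minor C hC a va
  have mb := minor C hC b vb
  have md := minor C hC d vd
  unfold iv Claw
  simp only
  rw [pt_le mc.1 ma.2, pt_lt ma.2 mb.1, pt_lt mb.2 md.1, pt_le md.1 mc.2]

lemma lo_le_hi (C : List (ℕ × ℕ × ℕ)) (hC : ∀ c ∈ C, c.1 ≠ c.2.2 ∧ c.2.1 ≠ c.2.2) (a : El)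
    (va : Vd C a) : (iv C a).1 ≤ (iv C a).2 := by
  have m := minor C hC a va
  have g := good C hC
  unfold iv
  simp only
  rw [pt_le m.1 m.2]
  unfold Vd at va
  rcases a with ⟨i, k⟩ | ⟨i, k⟩ | ⟨i, k⟩ | i | i | i | ⟨i, s⟩ | ⟨i, u, v, t⟩ | ⟨i, u, v, t⟩ <;>
    simp only [lo, hi, true_and]
  all_goals try omega
  · have h := g.nlt _ _ _ _ va
    have := g.n1 _ _ _ _ va u h.1 h.2.2.2.1
    omega
  · have h := g.plt _ _ _ _ va
    have := g.p1 _ _ _ _ va u h.1 h.2.2.2.1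
    omega

/-- the list of intervals -/
def ints (C : List (ℕ × ℕ × ℕ)) : List (ℕ × ℕ) :=
  ((range (4 * C.length)).flatMap fun i =>
    ((range (nw C)).flatMap fun k => [iv C (w i k), iv C (b i k), iv C (x i k)]) ++
    ([iv C (A i), iv C (W i), iv C (B i)] ++
    (range 13).map fun s => iv C (T i s))) ++
  (range C.length).flatMap fun j =>
    [iv C (e (2 * C.length + 2 * j) (C.getD j (0, 0, 0)).1 (C.getD j (0, 0, 0)).2.1
      (C.getD j (0, 0, 0)).2.2),
    iv C (f (2 * j) (C.getD j (0, 0, 0)).1 (C.getD j (0, 0, 0)).2.1 (C.getD j (0, 0, 0)).2.2)]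

lemma mem_ints (C : List (ℕ × ℕ × ℕ)) (p : ℕ × ℕ) : p ∈ ints C ↔ ∃ a, Vd C a ∧ iv C a = p := by
  unfold ints
  simp only [mem_append, mem_flatMap, mem_map, mem_range, mem_cons, not_mem_nil, or_false]
  constructor
  · rintro (⟨i, hi', h⟩ | ⟨j, hj, h⟩)
    · rcases h with ⟨k, hk, h | h | h⟩ | (h | h | h) | ⟨s, hs, h⟩
      · exact ⟨w i k, ⟨hi', hk⟩, h.symm⟩
      · exact ⟨b i k, ⟨hi', hk⟩, h.symm⟩
      · exact ⟨x i k, ⟨hi', hk⟩, h.symm⟩
      · exact ⟨A i, hi', h.symm⟩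
      · exact ⟨W i, hi', h.symm⟩
      · exact ⟨B i, hi', h.symm⟩
      · exact ⟨T i s, ⟨hi', hs⟩, h⟩
    · rcases h with h | h
      · exact ⟨e (2 * C.length + 2 * j) _ _ _, ⟨j, hj, rfl, rfl⟩, h.symm⟩
      · exact ⟨f (2 * j) _ _ _, ⟨j, hj, rfl, rfl⟩, h.symm⟩
  · rintro ⟨a, va, rfl⟩
    unfold Vd at va
    rcases a with ⟨i, k⟩ | ⟨i, k⟩ | ⟨i, k⟩ | i | i | i | ⟨i, s⟩ | ⟨i, u, v, t⟩ | ⟨i, u, v, t⟩
    · exact Or.inl ⟨i, va.1, Or.inl ⟨k, va.2, Or.inl rfl⟩⟩
    · exact Or.inl ⟨i, va.1, Or.inl ⟨k, va.2, Or.inr (Or.inl rfl)⟩⟩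
    · exact Or.inl ⟨i, va.1, Or.inl ⟨k, va.2, Or.inr (Or.inr rfl)⟩⟩
    · exact Or.inl ⟨i, va, Or.inr (Or.inl (Or.inl rfl))⟩
    · exact Or.inl ⟨i, va, Or.inr (Or.inl (Or.inr (Or.inl rfl)))⟩
    · exact Or.inl ⟨i, va, Or.inr (Or.inl (Or.inr (Or.inr rfl)))⟩
    · exact Or.inl ⟨i, va.1, Or.inr (Or.inr ⟨s, va.2, rfl⟩)⟩
    · obtain ⟨j, hj, rfl, h⟩ := va
      exact Or.inr ⟨j, hj, Or.inl (by rw [h])⟩
    · obtain ⟨j, hj, rfl, h⟩ := va
      exact Or.inr ⟨j, hj, Or.inr (by rw [h])⟩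

lemma ints_le (C : List (ℕ × ℕ × ℕ)) (hC : ∀ c ∈ C, c.1 ≠ c.2.2 ∧ c.2.1 ≠ c.2.2) :
    ∀ p ∈ ints C, p.1 ≤ p.2 := by
  intro p hp
  rw [mem_ints] at hp
  obtain ⟨a, va, rfl⟩ := hp
  exact lo_le_hi C hC a va

theorem ints_iff (C : List (ℕ × ℕ × ℕ)) (hC : ∀ c ∈ C, c.1 ≠ c.2.2 ∧ c.2.1 ≠ c.2.2) :
    (∃ f : ℕ → Bool, ∀ c ∈ C, ¬ (f c.1 = f c.2.1 ∧ f c.2.1 = f c.2.2)) ↔
      Partitionable (graphOf (adjLists (ints C))) := by
  rw [partitionable_iff _ (ints_le C hC)]
  have g := good C hC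
  have mem : ∀ j < C.length, C.getD j (0, 0, 0) ∈ C := by
    intro j hj
    rw [getD_eq_getElem _ _ hj]
    exact getElem_mem _
  constructor
  · rintro ⟨s, hs⟩
    classical
    set σ : ℕ → ℕ := fun k => if s k = true then 1 else 0 with hσd
    have hσ : ∀ k, σ k ≤ 1 := by
      intro k
      simp only [hσd]
      split_ifs <;> omega
    have hσ1 : ∀ k, σ k = 1 ↔ s k = true := by
      intro k
      simp only [hσd]
      split_ifs with h <;> simp [h]
    have hσ0 : ∀ k, σ k = 0 ↔ s k = false := by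
      intro k
      simp only [hσd]
      split_ifs with h <;> simp [h]
    refine ⟨fun p => if h : ∃ a, Vd C a ∧ iv C a = p then
      decide (blk σ h.choose % 2 = 1) else false, ?_⟩
    intro c hc a ha b hb d hd
    rw [mem_ints] at hc ha hb hd
    simp only [hc, ha, hb, hd, dif_pos, decide_eq_decide]
    obtain ⟨vc, ec⟩ := hc.choose_spec
    obtain ⟨va, ea⟩ := ha.choose_spec
    obtain ⟨vb, eb⟩ := hb.choose_spec
    obtain ⟨vd, ed⟩ := hd.choose_spec
    set c' := hc.choose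
    set a' := ha.choose
    set b' := hb.choose
    set d' := hd.choose
    rw [← ec, ← ea, ← eb, ← ed, claw_iff C hC c' a' b' d' vc va vb vd]
    intro e1 e2 e3 hcl
    have rc := blk_range (κ := zone C) hσ c'
    have ra := blk_range (κ := zone C) hσ a'
    have rb := blk_range (κ := zone C) hσ b'
    have rd := blk_range (κ := zone C) hσ d'
    refine fwd g hσ ?_ ?_ c' a' b' d' vc va vb vd (blk σ c') rfl ?_ ?_ ?_ hcl
    · rintro i u v t ⟨j, hj, _, h⟩
      have h1 := hs _ (mem j hj)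
      rw [h] at h1
      simp only at h1
      rw [hσ1, hσ1, hσ1]
      rintro ⟨h2, h3, h4⟩
      exact h1 ⟨by rw [h2, h3], by rw [h3, h4]⟩
    · rintro i u v t ⟨j, hj, _, h⟩
      have h1 := hs _ (mem j hj)
      rw [h] at h1
      simp only at h1
      rw [hσ0, hσ0, hσ0]
      rintro ⟨h2, h3, h4⟩
      exact h1 ⟨by rw [h2, h3], by rw [h3, h4]⟩
    · obtain ⟨h1, h2, h3, h4⟩ := hcl
      omega
    · obtain ⟨h1, h2, h3, h4⟩ := hcl
      omega
    · obtain ⟨h1, h2, h3, h4⟩ := hcl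
      omega
  · rintro ⟨χ, hχ⟩
    rcases Nat.eq_zero_or_pos C.length with h0 | h0
    · refine ⟨fun _ => true, fun c hc => ?_⟩
      rw [length_eq_zero_iff] at h0
      rw [h0] at hc
      simp at hc
    · obtain ⟨s, h1, h2⟩ := bwd (n := nw C) (M := 4 * C.length) (κ := zone C) (NG := NGa C)
        (PG := PGa C) (fun a => χ (iv C a)) (by
          intro c a b d vc va vb vd e1 e2 e3
          rw [← claw_iff C hC c a b d vc va vb vd]
          exact hχ _ ((mem_ints C _).2 ⟨c, vc, rfl⟩) _ ((mem_ints C _).2 ⟨a, va, rfl⟩) _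
            ((mem_ints C _).2 ⟨b, vb, rfl⟩) _ ((mem_ints C _).2 ⟨d, vd, rfl⟩) e1 e2 e3) g
        (i0 := 2 * C.length - 1) (by omega) (by
          rintro i u v t ⟨j, hj, rfl, h⟩
          omega) (by
          rintro i u v t ⟨j, hj, rfl, h⟩
          omega)
      refine ⟨s, fun c hc => ?_⟩
      obtain ⟨j, hj, hj'⟩ := getElem_of_mem hc
      have hg : C.getD j (0, 0, 0) = c := by
        rw [getD_eq_getElem _ _ hj, hj']
      have p1 := h1 (2 * j) c.1 c.2.1 c.2.2 ⟨j, hj, rfl, hg⟩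
      have p2 := h2 (2 * C.length + 2 * j) c.1 c.2.1 c.2.2 ⟨j, hj, rfl, hg⟩
      rintro ⟨q1, q2⟩
      revert p1 p2 q1 q2
      cases s c.1 <;> cases s c.2.1 <;> cases s c.2.2 <;> simp

end Pool.Agent.PropInt
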