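import Pool.Agent.Lib_helper79.PropInt.PolyRed

/-!
The partition problem is in NP.
-/

set_option autoImplicit false

namespace Pool.Agent.PropInt

open List Pool.Agent.Poly Pool.Agent.Seg

/-! ### Small integer coordinates -/

section compress

variable {ι : Type} [Fintype ι] (l r : ι → ℝ)

open Classical in
/-- rank of a real number among the end points -/
noncomputable def rk (x : ℝ) : ℕ :=
  (Finset.univ.filter fun i => l i < x).card + (Finset.univ.filter fun i => r i < x).card

lemma rk_le (x : ℝ) : rk l r x ≤ 2 * Fintype.card ι := by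
  classical
  unfold rk
  have h1 : (Finset.univ.filter fun i => l i < x).card ≤ Fintype.card ι := Finset.card_filter_le _ _
  have h2 : (Finset.univ.filter fun i => r i < x).card ≤ Fintype.card ι := Finset.card_filter_le _ _
  omega

lemma rk_mono {x y : ℝ} (h : x ≤ y) : rk l r x ≤ rk l r y := by
  classical
  unfold rk
  apply Nat.add_le_add <;> apply Finset.card_le_card <;> intro i <;>
    simp only [Finset.mem_filter, Finset.mem_univ, true_and] <;> intro hi <;> linarith

lemma rk_lt_l {y : ℝ} {i : ι} (h : l i < y) : rk l r (l i) < rk l r y := by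
  classical
  unfold rk
  apply Nat.add_lt_add_of_lt_of_le
  · apply Finset.card_lt_card
    rw [Finset.ssubset_iff_of_subset]
    · exact ⟨i, by simpa using h, by simp⟩
    · intro j
      simp only [Finset.mem_filter, Finset.mem_univ, true_and]
      intro hj
      linarith
  · apply Finset.card_le_card
    intro j
    simp only [Finset.mem_filter, Finset.mem_univ, true_and]
    intro hj
    linarith

lemma rk_lt_r {y : ℝ} {i : ι} (h : r i < y) : rk l r (r i) < rk l r y := by
  classical
  unfold rk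
  apply Nat.add_lt_add_of_le_of_lt
  · apply Finset.card_le_card
    intro j
    simp only [Finset.mem_filter, Finset.mem_univ, true_and]
    intro hj
    linarith
  · apply Finset.card_lt_card
    rw [Finset.ssubset_iff_of_subset]
    · exact ⟨i, by simpa using h, by simp⟩
    · intro j
      simp only [Finset.mem_filter, Finset.mem_univ, true_and]
      intro hj
      linarith

lemma rk_l {y : ℝ} (i : ι) : rk l r y ≤ rk l r (l i) ↔ y ≤ l i := by
  constructor
  · intro h
    by_contra hc
    have := rk_lt_l l r (not_le.1 hc)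
    omega
  · exact rk_mono l r

lemma rk_r {y : ℝ} (i : ι) : rk l r y ≤ rk l r (r i) ↔ y ≤ r i := by
  constructor
  · intro h
    by_contra hc
    have := rk_lt_r l r (not_le.1 hc)
    omega
  · exact rk_mono l r

end compress

/-- adjacency test -/
def adjT (L : List (List ℕ)) (i j : ℕ) : Bool :=
  (L.getD i []).any (fun x => decide (x = j)) || (L.getD j []).any (fun x => decide (x = i))

lemma adjT_iff (L : List (List ℕ)) (u v : Fin L.length) :
    (graphOf L).Adj u v ↔ u ≠ v ∧ adjT L u v = true := by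
  unfold graphOf adjT
  rw [SimpleGraph.fromRel_adj]
  have h : ∀ (u : Fin L.length) (v : ℕ), ((L.getD u []).any (fun x => decide (x = v)) = true) ↔
      v ∈ L[(u : ℕ)] := by
    intro u v
    rw [getD_eq_getElem _ _ u.2, any_eq_true]
    constructor
    · rintro ⟨x, h1, h2⟩
      rw [decide_eq_true_eq] at h2
      rwa [← h2]
    · intro h
      exact ⟨v, h, by simp⟩
  rw [Bool.or_eq_true, h, h]

/-- the condition on the certificate -/
def Cond (L : List (List ℕ)) (v : ℕ → ℕ) : Prop :=
  ∀ i < L.length, (v (5 * i + 1) ≤ v (5 * i + 2) ∧ v (5 * i + 3) ≤ v (5 * i + 4)) ∧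
    ∀ j < L.length, i ≠ j →
      ((adjT L i j = true ↔ v (5 * i + 1) ≤ v (5 * j + 2) ∧ v (5 * j + 1) ≤ v (5 * i + 2)) ∧
      ((v (5 * i) = 0 ↔ v (5 * j) = 0) →
        (adjT L i j = true ↔ v (5 * i + 3) ≤ v (5 * j + 4) ∧ v (5 * j + 3) ≤ v (5 * i + 4)) ∧
        ¬ (v (5 * j + 3) ≤ v (5 * i + 3) ∧ v (5 * i + 4) ≤ v (5 * j + 4) ∧
          ¬ (v (5 * i + 3) ≤ v (5 * j + 3) ∧ v (5 * j + 4) ≤ v (5 * i + 4)))))

lemma ssubset_icc {a b c d : ℝ} (h1 : a ≤ b) (h2 : c ≤ d) :
    Set.Icc a b ⊂ Set.Icc c d ↔ (c ≤ a ∧ b ≤ d ∧ ¬ (a ≤ c ∧ d ≤ b)) := by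
  have h3 := Set.Icc_subset_Icc_iff (a₂ := c) (b₂ := d) h1
  have h4 := Set.Icc_subset_Icc_iff (a₂ := a) (b₂ := b) h2
  rw [ssubset_iff_subset_not_subset, h3, h4, and_assoc]

lemma cond_of (L : List (List ℕ)) (h1 : IsIntervalGraph (graphOf L))
    (h2 : Partitionable (graphOf L)) : ∃ v : ℕ → ℕ, (∀ j, v j ≤ 2 * L.length + 1) ∧ Cond L v := by
  classical
  obtain ⟨l, r, hlr, hadj⟩ := h1
  obtain ⟨S, ⟨lA, rA, ⟨hA, adjA⟩, pA⟩, ⟨lB, rB, ⟨hB, adjB⟩, pB⟩⟩ := h2
  -- the two representations on the parts
  let l2 : Fin L.length → ℕ := fun u => if h : u ∈ S then rk lA rA (lA ⟨u, h⟩) else rk lB rB (lB ⟨u, h⟩)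
  let r2 : Fin L.length → ℕ := fun u => if h : u ∈ S then rk lA rA (rA ⟨u, h⟩) else rk lB rB (rB ⟨u, h⟩)
  let ext : (Fin L.length → ℕ) → ℕ → ℕ := fun g i => if h : i < L.length then g ⟨i, h⟩ else 0
  let v : ℕ → ℕ := fun q => if q % 5 = 0 then ext (fun u => if u ∈ S then 0 else 1) (q / 5) else
    if q % 5 = 1 then ext (fun u => rk l r (l u)) (q / 5) else
    if q % 5 = 2 then ext (fun u => rk l r (r u)) (q / 5) else
    if q % 5 = 3 then ext l2 (q / 5) else ext r2 (q / 5)
  have cA : Fintype.card S ≤ L.length := by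
    have := Fintype.card_subtype_le (fun u : Fin L.length => u ∈ S)
    rw [Fintype.card_fin] at this
    convert this
  have cB : Fintype.card (Sᶜ : Set (Fin L.length)) ≤ L.length := by
    have := Fintype.card_subtype_le (fun u : Fin L.length => u ∈ Sᶜ)
    rw [Fintype.card_fin] at this
    convert this
  have v0 : ∀ u : Fin L.length, v (5 * u.1) = if u ∈ S then 0 else 1 := by
    intro u
    have e1 : (5 * u.1) % 5 = 0 := by omega
    have e2 : (5 * u.1) / 5 = u.1 := by omega
    simp only [v, e1, e2, ext, if_true, u.2, dif_pos]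
  have v1 : ∀ u : Fin L.length, v (5 * u.1 + 1) = rk l r (l u) := by
    intro u
    have e1 : (5 * u.1 + 1) % 5 = 1 := by omega
    have e2 : (5 * u.1 + 1) / 5 = u.1 := by omega
    simp only [v, e1, e2, ext, if_true, u.2, dif_pos, one_ne_zero, if_false]
  have v2 : ∀ u : Fin L.length, v (5 * u.1 + 2) = rk l r (r u) := by
    intro u
    have e1 : (5 * u.1 + 2) % 5 = 2 := by omega
    have e2 : (5 * u.1 + 2) / 5 = u.1 := by omega
    simp [v, e1, e2, ext]
  have v3 : ∀ u : Fin L.length, v (5 * u.1 + 3) = l2 u := by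
    intro u
    have e1 : (5 * u.1 + 3) % 5 = 3 := by omega
    have e2 : (5 * u.1 + 3) / 5 = u.1 := by omega
    simp [v, e1, e2, ext]
  have v4 : ∀ u : Fin L.length, v (5 * u.1 + 4) = r2 u := by
    intro u
    have e1 : (5 * u.1 + 4) % 5 = 4 := by omega
    have e2 : (5 * u.1 + 4) / 5 = u.1 := by omega
    simp [v, e1, e2, ext]
  refine ⟨v, ?_, ?_⟩
  · intro q
    have b1 : ∀ x, rk l r x ≤ 2 * L.length + 1 := by
      intro x
      have := rk_le l r x
      rw [Fintype.card_fin] at this
      omega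
    have bA : ∀ x, rk lA rA x ≤ 2 * L.length + 1 := by
      intro x
      have := rk_le lA rA x
      omega
    have bB : ∀ x, rk lB rB x ≤ 2 * L.length + 1 := by
      intro x
      have := rk_le lB rB x
      omega
    simp only [v, ext, l2, r2]
    split_ifs <;> first | exact b1 _ | exact bA _ | exact bB _ | omega
  · intro i hi
    set u : Fin L.length := ⟨i, hi⟩ with hu
    have hui : i = u.1 := rfl
    rw [hui, v1, v2, v3, v4]
    refine ⟨⟨(rk_mono l r (hlr u)), ?_⟩, ?_⟩
    · simp only [l2, r2]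
      split_ifs with h
      · exact rk_mono _ _ (hA _)
      · exact rk_mono _ _ (hB ⟨u, h⟩)
    · intro j hj hij
      set w : Fin L.length := ⟨j, hj⟩ with hw
      have hwj : j = w.1 := rfl
      have huw : u ≠ w := by
        intro h
        exact hij (congrArg Fin.val h)
      rw [hwj, v1, v2, v3, v4, v0, v0]
      have hT : adjT L u w = true ↔ (graphOf L).Adj u w := by
        rw [adjT_iff]
        simp [huw]
      rw [rk_r, rk_r, hT]
      refine ⟨?_, ?_⟩
      · rw [hadj u w huw, icc_meet (hlr u) (hlr w)]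
      · intro hs
        simp only [l2, r2]
        by_cases h3 : u ∈ S
        · have h4 : w ∈ S := by
            by_contra h4
            simp [h3, h4] at hs
          simp only [h3, h4, dif_pos]
          rw [rk_r, rk_r, rk_l, rk_r, rk_l, rk_r]
          have hne : (⟨u, h3⟩ : S) ≠ ⟨w, h4⟩ := fun h => huw (Subtype.mk.inj h)
          have e1 := adjA ⟨u, h3⟩ ⟨w, h4⟩ hne
          rw [icc_meet (hA _) (hA _), SimpleGraph.comap_adj] at e1
          refine ⟨e1, ?_⟩
          have e2 := pA ⟨u, h3⟩ ⟨w, h4⟩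
          rw [ssubset_icc (hA _) (hA _)] at e2
          exact e2
        · have h4 : w ∉ S := by
            intro h4
            simp [h3, h4] at hs
          simp only [h3, h4, dif_neg, not_false_eq_true]
          rw [rk_r, rk_r, rk_l, rk_r, rk_l, rk_r]
          have hne : (⟨u, h3⟩ : (Sᶜ : Set (Fin L.length))) ≠ ⟨w, h4⟩ := fun h => huw (Subtype.mk.inj h)
          have e1 := adjB ⟨u, h3⟩ ⟨w, h4⟩ hne
          rw [icc_meet (hB _) (hB _), SimpleGraph.comap_adj] at e1
          refine ⟨e1, ?_⟩
          have e2 := pB ⟨u, h3⟩ ⟨w, h4⟩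
          rw [ssubset_icc (hB _) (hB _)] at e2
          exact e2

lemma of_cond (L : List (List ℕ)) (v : ℕ → ℕ) (h : Cond L v) :
    IsIntervalGraph (graphOf L) ∧ Partitionable (graphOf L) := by
  have hT : ∀ u w : Fin L.length, u ≠ w → ((graphOf L).Adj u w ↔ adjT L u w = true) := by
    intro u w huw
    rw [adjT_iff]
    simp [huw]
  refine ⟨⟨fun u => (v (5 * u.1 + 1) : ℝ), fun u => (v (5 * u.1 + 2) : ℝ), ?_, ?_⟩, ?_⟩
  · intro u
    exact Nat.cast_le.2 (h u u.2).1.1
  · intro u w huw
    have hne : u.1 ≠ w.1 := fun h => huw (Fin.ext h)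
    rw [icc_meet (Nat.cast_le.2 (h u u.2).1.1) (Nat.cast_le.2 (h w w.2).1.1), hT u w huw,
      ((h u u.2).2 w w.2 hne).1, Nat.cast_le, Nat.cast_le]
  · have main : ∀ S : Set (Fin L.length),
        (∀ u ∈ S, ∀ w ∈ S, (v (5 * u.1) = 0 ↔ v (5 * w.1) = 0)) →
        IsProperIntervalGraph ((graphOf L).induce S) := by
      intro S hS
      refine ⟨fun u => (v (5 * u.1.1 + 3) : ℝ), fun u => (v (5 * u.1.1 + 4) : ℝ), ⟨?_, ?_⟩, ?_⟩
      · intro u
        exact Nat.cast_le.2 (h u.1 u.1.2).1.2
      · intro u w huw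
        have hne : u.1 ≠ w.1 := fun h => huw (Subtype.ext h)
        have hne' : u.1.1 ≠ w.1.1 := fun h => hne (Fin.ext h)
        rw [icc_meet (Nat.cast_le.2 (h u.1 u.1.2).1.2) (Nat.cast_le.2 (h w.1 w.1.2).1.2),
          SimpleGraph.comap_adj]
        simp only [Function.Embedding.subtype_apply]
        rw [hT _ _ hne, (((h u.1 u.1.2).2 w.1 w.1.2 hne').2 (hS _ u.2 _ w.2)).1, Nat.cast_le,
          Nat.cast_le]
      · intro u w
        rw [ssubset_icc (Nat.cast_le.2 (h u.1 u.1.2).1.2) (Nat.cast_le.2 (h w.1 w.1.2).1.2)]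
        by_cases huw : u = w
        · subst huw
          rintro ⟨a, b, c⟩
          exact c ⟨le_rfl, le_rfl⟩
        · have hne : u.1 ≠ w.1 := fun h => huw (Subtype.ext h)
          have hne' : u.1.1 ≠ w.1.1 := fun h => hne (Fin.ext h)
          have := (((h u.1 u.1.2).2 w.1 w.1.2 hne').2 (hS _ u.2 _ w.2)).2
          simp only [Nat.cast_le]
          exact this
    refine ⟨{u | v (5 * u.1) = 0}, main _ ?_, main _ ?_⟩
    · intro u hu w hw
      rw [Set.mem_ofPred_eq] at hu hw
      simp [hu, hw]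
    · intro u hu w hw
      rw [Set.mem_compl_iff, Set.mem_ofPred_eq] at hu hw
      simp [hu, hw]

/-! ### The test -/

/-- equality of truth values -/
def eqB (a b : Bool) : Bool := (a && b) || (!a && !b)

lemma eqB_iff (a b : Bool) : eqB a b = true ↔ (a = true ↔ b = true) := by
  cases a <;> cases b <;> simp [eqB]

/-- the test for a certificate -/
def vfy (p : List (List ℕ) × List Bool) : Bool :=
  (range p.1.length).all fun i =>
    (decide (numb p.2 (2 * p.1.length + 1) (5 * i + 1) ≤ numb p.2 (2 * p.1.length + 1) (5 * i + 2)) &&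
    decide (numb p.2 (2 * p.1.length + 1) (5 * i + 3) ≤ numb p.2 (2 * p.1.length + 1) (5 * i + 4))) &&
    (range p.1.length).all fun j => decide (i = j) ||
      (eqB (adjT p.1 i j)
        (decide (numb p.2 (2 * p.1.length + 1) (5 * i + 1) ≤
          numb p.2 (2 * p.1.length + 1) (5 * j + 2)) &&
        decide (numb p.2 (2 * p.1.length + 1) (5 * j + 1) ≤
          numb p.2 (2 * p.1.length + 1) (5 * i + 2))) &&
      (!(eqB (decide (numb p.2 (2 * p.1.length + 1) (5 * i) = 0))
          (decide (numb p.2 (2 * p.1.length + 1) (5 * j) = 0))) ||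
        (eqB (adjT p.1 i j)
        (decide (numb p.2 (2 * p.1.length + 1) (5 * i + 3) ≤
          numb p.2 (2 * p.1.length + 1) (5 * j + 4)) &&
        decide (numb p.2 (2 * p.1.length + 1) (5 * j + 3) ≤
          numb p.2 (2 * p.1.length + 1) (5 * i + 4))) &&
        !(decide (numb p.2 (2 * p.1.length + 1) (5 * j + 3) ≤
            numb p.2 (2 * p.1.length + 1) (5 * i + 3)) &&
          (decide (numb p.2 (2 * p.1.length + 1) (5 * i + 4) ≤
            numb p.2 (2 * p.1.length + 1) (5 * j + 4)) &&
          !(decide (numb p.2 (2 * p.1.length + 1) (5 * i + 3) ≤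
            numb p.2 (2 * p.1.length + 1) (5 * j + 3)) &&
          decide (numb p.2 (2 * p.1.length + 1) (5 * j + 4) ≤
            numb p.2 (2 * p.1.length + 1) (5 * i + 4))))))))

lemma vfy_iff (L : List (List ℕ)) (w : List Bool) :
    vfy (L, w) = true ↔ Cond L (numb w (2 * L.length + 1)) := by
  unfold vfy Cond
  simp only [all_eq_true, mem_range, Bool.and_eq_true, Bool.or_eq_true, Bool.not_eq_true',
    decide_eq_true_eq, eqB_iff]
  refine forall_congr' fun i => forall_congr' fun _ => and_congr Iff.rfl ?_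
  refine forall_congr' fun j => forall_congr' fun _ => ?_
  rw [or_iff_not_imp_left]
  refine imp_congr Iff.rfl (and_congr Iff.rfl ?_)
  rw [← Bool.not_eq_true, eqB_iff, or_iff_not_imp_left, not_not]
  simp only [decide_eq_true_eq]
  refine imp_congr Iff.rfl (and_congr Iff.rfl ?_)
  rw [← Bool.not_eq_true]
  simp only [Bool.and_eq_true, decide_eq_true_eq, Bool.not_eq_true', ← Bool.not_eq_true]

lemma pt_eqB {α : Type} [Rep α] {f g : α → Bool} (hf : PolyTime f) (hg : PolyTime g) :
    PolyTime (fun x => eqB (f x) (g x)) := by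
  unfold eqB
  fun_prop

lemma pt_adjT {α : Type} [Rep α] {L : α → List (List ℕ)} {i j : α → ℕ} (hL : PolyTime L)
    (hi : PolyTime i) (hj : PolyTime j) : PolyTime (fun x => adjT (L x) (i x) (j x)) := by
  unfold adjT
  refine PolyTime.or (PolyTime.any (by fun_prop) (PolyTime.natEq (by fun_prop) (by fun_prop)))
    (PolyTime.any (by fun_prop) (PolyTime.natEq (by fun_prop) (by fun_prop)))

lemma pt_vfy : PolyTime vfy := by
  unfold vfy
  apply PolyTime.all (by fun_prop)
  refine PolyTime.and (PolyTime.and ?_ ?_) ?_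
  · exact PolyTime.le (pt_numb (by fun_prop) (by fun_prop) (by fun_prop))
      (pt_numb (by fun_prop) (by fun_prop) (by fun_prop))
  · exact PolyTime.le (pt_numb (by fun_prop) (by fun_prop) (by fun_prop))
      (pt_numb (by fun_prop) (by fun_prop) (by fun_prop))
  · apply PolyTime.all (by fun_prop)
    refine PolyTime.or (PolyTime.natEq (by fun_prop) (by fun_prop)) (PolyTime.and
      (pt_eqB (pt_adjT (by fun_prop) (by fun_prop) (by fun_prop)) (PolyTime.and ?_ ?_))
      (PolyTime.or (PolyTime.not (pt_eqB ?_ ?_)) (PolyTime.and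
      (pt_eqB (pt_adjT (by fun_prop) (by fun_prop) (by fun_prop)) (PolyTime.and ?_ ?_))
      (PolyTime.not (PolyTime.and ?_ (PolyTime.and ?_ (PolyTime.not (PolyTime.and ?_ ?_))))))))
    all_goals first
      | exact PolyTime.le (pt_numb (by fun_prop) (by fun_prop) (by fun_prop))
          (pt_numb (by fun_prop) (by fun_prop) (by fun_prop))
      | exact PolyTime.natEq (pt_numb (by fun_prop) (by fun_prop) (by fun_prop)) (by fun_prop)

lemma length_le_size {α : Type} [Rep α] (L : List α) : L.length ≤ (rep L).size := by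
  rw [← len_rep_list]
  exact len_le_size _

theorem inNP : InNP (fun L : List (List ℕ) =>
    IsIntervalGraph (graphOf L) ∧ Partitionable (graphOf L)) := by
  refine ⟨6, vfy, pt_vfy, fun L => ?_⟩
  constructor
  · rintro ⟨h1, h2⟩
    obtain ⟨v, hv, hc⟩ := cond_of L h1 h2
    set B := 2 * L.length + 1 with hB
    set m := 5 * L.length with hm
    refine ⟨(range (m * B)).map fun q => decide (q % B < v (q / B)), ?_, ?_⟩
    · rw [length_map, length_range]
      have b1 := length_le_size L
      set s := (rep L).size with hs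
      have b2 : m * B ≤ (5 * s) * (2 * s + 1) := Nat.mul_le_mul (by omega) (by omega)
      have b3 : (5 * s) * (2 * s + 1) ≤ (s + 2) ^ 6 := by
        have c1 : 5 * s ≤ (s + 2) ^ 3 := by nlinarith [sq_nonneg s, Nat.zero_le (s ^ 3)]
        have c2 : 2 * s + 1 ≤ (s + 2) ^ 3 := by nlinarith [sq_nonneg s, Nat.zero_le (s ^ 3)]
        calc (5 * s) * (2 * s + 1) ≤ (s + 2) ^ 3 * (s + 2) ^ 3 := Nat.mul_le_mul c1 c2
          _ = (s + 2) ^ 6 := by rw [← pow_add]
      exact b2.trans b3
    · rw [vfy_iff, ← hB]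
      have hnum : ∀ j < m, numb ((range (m * B)).map fun q => decide (q % B < v (q / B))) B j =
          v j := fun j hj => numb_map B m v j hj (hv j)
      intro i hi
      have hi5 : 5 * i + 4 < m := by omega
      obtain ⟨a1, a2⟩ := hc i hi
      rw [hnum _ (by omega), hnum _ (by omega), hnum _ (by omega), hnum _ (by omega)]
      refine ⟨a1, ?_⟩
      intro j hj hij
      have hj5 : 5 * j + 4 < m := by omega
      have := a2 j hj hij
      rw [hnum _ (by omega), hnum _ (by omega), hnum _ (by omega), hnum _ (by omega),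
        hnum _ (by omega), hnum _ (by omega)]
      exact this
  · rintro ⟨w, _, hw⟩
    rw [vfy_iff] at hw
    exact of_cond L _ hw

end Pool.Agent.PropInt
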